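import Pool.Agent.L5helper75.SH.Pos

/-! Values of the lines of `Shi_2` at the intersection points. -/

namespace ShiFree

open MvPolynomial

variable {K : Type*} [Field K]

/-- the nine intersection points: `X12, X34, X13, X24, X14, X23, Dx, Dy, Dz` -/
def pt (K : Type*) [Field K] : Fin 9 → Fin 3 → K :=
  ![![0, 1, 0], ![0, 0, 1], ![1, 0, 0], ![1, 1, 1], ![1, 1, 0], ![1, 0, 1],
    ![2, 1, 1], ![0, 1, -1], ![0, 1, 1]]

/-- the values of the lines at the points -/
def val : Fin 9 → Fin 7 → ℤ :=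
  ![![0, 0, -1, 1, 0, -1, 1], ![1, -1, 0, 0, 0, 1, 1], ![0, 1, 0, -1, 1, 0, -1],
    ![1, 0, -1, 0, 1, 0, 1], ![0, 1, -1, 0, 1, -1, 0], ![1, 0, 0, -1, 1, 1, 0],
    ![1, 1, -1, -1, 2, 0, 0], ![-1, 1, -1, 1, 0, -2, 0], ![1, -1, -1, 1, 0, 0, 2]]

theorem eval_pt (a : Fin 9) (j : Fin 7) : eval (pt K a) (line K j) = ((val a j : ℤ) : K) := by
  fin_cases a <;> fin_cases j <;> simp [pt, val, line, B1, B2, B3, B4, A1, A2, A3] <;>
    (try norm_num)

/-- the lines not passing through the points -/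
def rst : Fin 9 → List (Fin 7) :=
  ![[5, 6, 2, 3], [5, 6, 0, 1], [4, 6, 1, 3], [4, 6, 0, 2], [4, 5, 1, 2], [4, 5, 0, 3],
    [4, 0, 1, 2, 3], [5, 0, 1, 2, 3], [6, 0, 1, 2, 3]]

/-- value of a product -/
def pv (a : Fin 9) (L : List (Fin 7)) : ℤ := (L.map (val a)).prod

theorem eval_lp (a : Fin 9) (L : List (Fin 7)) : eval (pt K a) (lp K L) = ((pv a L : ℤ) : K) := by
  induction L with
  | nil => simp [lp, pv]
  | cons i L ih =>
    have e : lp K (i :: L) = line K i * lp K L := by simp [lp]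
    have e' : pv a (i :: L) = val a i * pv a L := by simp [pv]
    rw [e, e', map_mul, ih, eval_pt]; push_cast; rfl

/-- coefficients of the differential of a product -/
def dc (a : Fin 9) : List (Fin 7) → Fin 7 → ℤ
  | [], _ => 0
  | i :: L, t => val a i * dc a L t + if t = i then pv a L else 0

theorem Dv_lp (a : Fin 9) (L : List (Fin 7)) :
    Dv (pt K a) (lp K L) = ∑ t, C ((dc a L t : ℤ) : K) * line K t := by
  induction L with
  | nil =>
    have e : lp K [] = (1 : MvPolynomial (Fin 3) K) := by simp [lp]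
    rw [e, Dv_apply]
    simp [dc]
  | cons i L ih =>
    have e : lp K (i :: L) = line K i * lp K L := by simp [lp]
    rw [e, Dv_mul, ih, Dv_line, eval_lp, eval_pt]
    have h1 : ∀ t, C ((dc a (i :: L) t : ℤ) : K) * line K t =
        C ((val a i : ℤ) : K) * (C ((dc a L t : ℤ) : K) * line K t) +
          if t = i then C ((pv a L : ℤ) : K) * line K t else 0 := by
      intro t
      simp only [dc]
      split_ifs with h
      · push_cast; rw [C_add, C_mul]; ring
      · push_cast; rw [add_zero, add_zero, C_mul]; ring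
    simp only [h1, Finset.sum_add_distrib, Finset.mul_sum, Finset.sum_ite_eq', Finset.mem_univ,
      if_true]

theorem evF_lp (R : List (Fin 7)) (a : Fin 9) (L : List (Fin 7)) :
    evF (lp K R) (pt K a) (lp K L) = C ((pv a L : ℤ) : K) * lp K R := by
  rw [evF_apply, eval_lp, mul_comm]

theorem dF_lp (R : List (Fin 7)) (a : Fin 9) (L : List (Fin 7)) :
    dF (lp K R) (pt K a) (lp K L) = lp K R * ∑ t, C ((dc a L t : ℤ) : K) * line K t := by
  rw [dF_apply, Dv_lp]

theorem dF_lp_zero {R : List (Fin 7)} {a : Fin 9} {L : List (Fin 7)} (h : ∀ t, dc a L t = 0) :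
    dF (lp K R) (pt K a) (lp K L) = 0 := by
  rw [dF_lp]; simp [h]

theorem dF_lp_single {R : List (Fin 7)} {a : Fin 9} {L : List (Fin 7)} {i : Fin 7} {z : ℤ}
    (h : ∀ t, dc a L t = if t = i then z else 0) :
    dF (lp K R) (pt K a) (lp K L) = C ((z : ℤ) : K) * lp K (i :: R) := by
  rw [dF_lp, Finset.sum_eq_single i]
  · rw [h, if_pos rfl]
    have e : lp K (i :: R) = line K i * lp K R := by simp [lp]
    rw [e]; ring
  · intro t _ ht; rw [h, if_neg ht]; simp
  · intro h; exact absurd (Finset.mem_univ i) h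

theorem dirF_lp (R : List (Fin 7)) (a b : Fin 9) (L : List (Fin 7)) :
    dirF (lp K R) (pt K a) (pt K b) (lp K L) = C ((∑ t, dc a L t * val b t : ℤ) : K) * lp K R := by
  rw [dirF_apply, Dv_lp, map_sum, mul_comm]
  congr 2
  push_cast
  refine Finset.sum_congr rfl fun t _ => ?_
  rw [map_mul, eval_C, eval_pt]

theorem good_ev' (m : ℕ) {R : List (Fin 7)} {a : Fin 9} (h : ∀ j, val a j = 0 ∨ j ∈ R) :
    Good (line K) m (evF (lp K R) (pt K a)) :=
  good_evF m _ _ fun j => (h j).imp (fun h => by rw [eval_pt, h, Int.cast_zero]) line_dvd_lp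

theorem good_dF' (m : ℕ) {R : List (Fin 7)} {a : Fin 9} (h : ∀ j, val a j = 0 ∨ j ∈ R) :
    Good (line K) m (dF (lp K R) (pt K a)) :=
  good_dF m _ _ fun j => (h j).imp (fun h => by rw [eval_pt, h, Int.cast_zero]) line_dvd_lp

theorem good_dirF' (m : ℕ) {R : List (Fin 7)} {a b : Fin 9}
    (h : ∀ j, (val a j = 0 ∧ val b j = 0) ∨ j ∈ R) :
    Good (line K) m (dirF (lp K R) (pt K a) (pt K b)) :=
  good_dirF m _ _ _ fun j => (h j).imp
    (fun h => by rw [eval_pt, eval_pt, h.1, h.2, Int.cast_zero]; exact ⟨rfl, rfl⟩) line_dvd_lp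

theorem rst_good : ∀ (a : Fin 9) (j : Fin 7), val a j = 0 ∨ j ∈ rst a := by decide

theorem rst_nodup : ∀ a : Fin 9, (rst a).Nodup := by decide

theorem intCast_ne [CharZero K] {z : ℤ} (h : z ≠ 0) : ((z : ℤ) : K) ≠ 0 := by exact_mod_cast h

/-! ### m = 3 -/

def M3 : Fin 9 → List (Fin 7) :=
  ![[5, 6, 2], [5, 6, 0], [4, 6, 1], [4, 6, 0], [4, 5, 1], [4, 5, 0], [4, 0, 1], [5, 0, 2],
    [6, 0, 3]]

def sg3 : Fin 9 → ℤ := ![1, -1, 1, -1, 1, -1, 1, 1, 1]

theorem len3 : ∀ a, (M3 a).length = 3 := by decide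

theorem tb3 [CharZero K] : HasTB K 3 := by
  refine ⟨Unit ⊕ Fin 9, inferInstance, Sum.elim (fun _ => 0) (fun _ => 1),
    Sum.elim (fun _ => lp K [4, 5, 6]) (fun a => lp K (M3 a)),
    Sum.elim (fun _ => 1) (fun a => evF (lp K (rst a)) (pt K a)), ?_, ?_⟩
  · refine TB.of_lists (L := Sum.elim (fun _ => [4, 5, 6]) rst)
      (c := Sum.elim (fun _ => 1) (fun a => ((pv a (M3 a) : ℤ) : K))) ?_ ?_ ?_ ?_ ?_ ?_ ?_ ?_
    · rintro (_ | a)
      · exact lp_mem [4, 5, 6]
      · have := lp_mem (K := K) (M3 a)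
        rw [len3] at this; exact this
    · rintro (_ | a)
      · exact good_id 3
      · exact good_ev' 3 (rst_good a)
    · rintro (_ | a) (_ | b) hne hr
      · exact absurd rfl hne
      · exact absurd hr (by simp)
      · simp only [Sum.elim_inl, Sum.elim_inr]
        rw [evF_lp]
        have : ∀ a, pv a [4, 5, 6] = 0 := by decide
        rw [this]; simp
      · simp only [Sum.elim_inr]
        rw [evF_lp]
        have : ∀ a b, b ≠ a → pv a (M3 b) = 0 := by decide
        rw [this a b (fun h => hne (by rw [h]))]; simp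
    · rintro (_ | a)
      · simp only [Sum.elim_inl]; decide
      · exact rst_nodup a
    · rintro (_ | a)
      · exact one_ne_zero
      · have : ∀ a, pv a (M3 a) ≠ 0 := by decide
        exact intCast_ne (this a)
    · rintro (_ | a)
      · simp
      · simp only [Sum.elim_inr]; rw [evF_lp]
    · rintro (_ | a) i hi
      · exact ⟨[], by simp, by simpa using line_dvd_lp hi⟩
      · by_cases h : i ∈ M3 a
        · exact ⟨[], by simp, by simpa using line_dvd_lp h⟩
        · refine ⟨[(sg3 a, Sum.inl ())], by simp, ?_⟩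
          simp only [Sum.elim_inr, Sum.elim_inl, List.map_cons, List.map_nil, List.sum_cons,
            List.sum_nil, add_zero]
          simp only [Sum.elim_inr] at hi
          have key : ∀ (a : Fin 9) (i : Fin 7), i ∈ rst a → i ∉ M3 a →
              line K i ∣ lp K (M3 a) + sg3 a • lp K [4, 5, 6] := by
            intro a i
            fin_cases a <;> fin_cases i <;> intro h1 h2 <;>
              first
              | exact absurd h1 (by decide)
              | exact absurd (by decide) h2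
              | (refine ⟨-(A2 K * A3 K), ?_⟩; simp [lp, line, M3, sg3, B1, B2, B3, B4, A1, A2, A3] <;> ring1)
              | (refine ⟨-(A1 K * A3 K), ?_⟩; simp [lp, line, M3, sg3, B1, B2, B3, B4, A1, A2, A3] <;> ring1)
              | (refine ⟨-(A1 K * A2 K), ?_⟩; simp [lp, line, M3, sg3, B1, B2, B3, B4, A1, A2, A3] <;> ring1)
              | (refine ⟨A1 K * B4 K, ?_⟩; simp [lp, line, M3, sg3, B1, B2, B3, B4, A1, A2, A3] <;> ring1)
              | (refine ⟨A1 K * B3 K, ?_⟩; simp [lp, line, M3, sg3, B1, B2, B3, B4, A1, A2, A3] <;> ring1)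
              | (refine ⟨A2 K * B4 K, ?_⟩; simp [lp, line, M3, sg3, B1, B2, B3, B4, A1, A2, A3] <;> ring1)
              | (refine ⟨A2 K * B2 K, ?_⟩; simp [lp, line, M3, sg3, B1, B2, B3, B4, A1, A2, A3] <;> ring1)
              | (refine ⟨A3 K * B3 K, ?_⟩; simp [lp, line, M3, sg3, B1, B2, B3, B4, A1, A2, A3] <;> ring1)
              | (refine ⟨A3 K * B2 K, ?_⟩; simp [lp, line, M3, sg3, B1, B2, B3, B4, A1, A2, A3] <;> ring1)
          exact key a i hi h
    · simp; decide
  · simp; decide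

end ShiFree
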