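import Pool.Agent.L5helper75.SH.Base5

/-! The triangular basis of `Shi_2` for `m = 4`. -/

namespace ShiFree

open MvPolynomial

variable {K : Type*} [Field K]

def M4b : Fin 3 → List (Fin 7) := ![[5, 6, 0, 2], [4, 6, 0, 1], [4, 5, 0, 1]]
def M4c : Fin 2 → List (Fin 7) := ![[4, 5, 6, 1], [4, 5, 6, 2]]
def M4d : Fin 9 → List (Fin 7) :=
  ![[5, 6, 2, 3], [5, 6, 0, 1], [4, 6, 1, 3], [4, 6, 0, 2], [4, 5, 1, 2], [4, 5, 0, 3],
    [4, 0, 1, 2], [5, 0, 1, 2], [6, 0, 1, 2]]
def p4 : Fin 3 → Fin 9 := ![0, 2, 4]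

theorem len4b : ∀ a, (M4b a).length = 4 := by decide
theorem len4c : ∀ a, (M4c a).length = 4 := by decide
theorem len4d : ∀ a, (M4d a).length = 4 := by decide

/-- the two functionals of degree 6 -/
noncomputable def P4c (K : Type*) [Field K] (e : Fin 2) : Module.End K (MvPolynomial (Fin 3) K) :=
  (![2, 1] e : ℤ) • dF (lp K (rst 6)) (pt K 6) + (![-1, -2] e : ℤ) • dF (lp K (rst 7)) (pt K 7) +
    (![4, 2] e : ℤ) • dF (lp K (2 :: rst 2)) (pt K 2) +
    (![2, -2] e : ℤ) • dF (lp K (3 :: rst 4)) (pt K 4) +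
    (![-2, -4] e : ℤ) • dF (lp K (1 :: rst 0)) (pt K 0)

theorem Good.zsmul {m : ℕ} {θ : Module.End K (MvPolynomial (Fin 3) K)} (h : Good (line K) m θ)
    (z : ℤ) : Good (line K) m (z • θ) := by
  intro i f hf hd
  rw [LinearMap.smul_apply, zsmul_eq_mul]
  exact Dvd.dvd.mul_left (h i f hf hd) _

theorem good_P4c (e : Fin 2) : Good (line K) 4 (P4c K e) := by
  refine ((((Good.zsmul (good_dF' 4 ?_) _).add (Good.zsmul (good_dF' 4 ?_) _)).add
    (Good.zsmul (good_dF' 4 ?_) _)).add (Good.zsmul (good_dF' 4 ?_) _)).add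
    (Good.zsmul (good_dF' 4 ?_) _)
  all_goals decide

theorem P4c_apply (e : Fin 2) (L : List (Fin 7)) : P4c K e (lp K L) =
    (![2, 1] e : ℤ) • (lp K (rst 6) * ∑ t, C ((dc 6 L t : ℤ) : K) * line K t) +
    (![-1, -2] e : ℤ) • (lp K (rst 7) * ∑ t, C ((dc 7 L t : ℤ) : K) * line K t) +
    (![4, 2] e : ℤ) • (lp K (2 :: rst 2) * ∑ t, C ((dc 2 L t : ℤ) : K) * line K t) +
    (![2, -2] e : ℤ) • (lp K (3 :: rst 4) * ∑ t, C ((dc 4 L t : ℤ) : K) * line K t) +
    (![-2, -4] e : ℤ) • (lp K (1 :: rst 0) * ∑ t, C ((dc 0 L t : ℤ) : K) * line K t) := by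
  simp only [P4c, LinearMap.add_apply, LinearMap.smul_apply, dF_lp]

theorem sum_dc {a : Fin 9} {L : List (Fin 7)} (i : Fin 7) (z : ℤ)
    (h : ∀ t, dc a L t = if t = i then z else 0) :
    ∑ t, C ((dc a L t : ℤ) : K) * line K t = (z : MvPolynomial (Fin 3) K) * line K i := by
  rw [Finset.sum_eq_single i]
  · rw [h, if_pos rfl, map_intCast]
  · intro t _ ht; rw [h, if_neg ht]; simp
  · intro h; exact absurd (Finset.mem_univ i) h

theorem P4c_a (e : Fin 2) : P4c K e (lp K [4, 5, 6, 0]) = 0 := by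
  rw [P4c_apply, sum_dc 0 0 (by decide), sum_dc 0 0 (by decide), sum_dc 0 0 (by decide),
    sum_dc 0 0 (by decide), sum_dc 0 0 (by decide)]
  simp

theorem P4c_b (e : Fin 2) (p : Fin 3) : P4c K e (lp K (M4b p)) = 0 := by
  fin_cases p
  · change P4c K e (lp K [5, 6, 0, 2]) = 0
    rw [P4c_apply, sum_dc 0 0 (by decide), sum_dc 6 (-2) (by decide), sum_dc 0 0 (by decide),
      sum_dc 0 0 (by decide), sum_dc 0 1 (by decide)]
    fin_cases e <;> simp [lp, rst, line] <;> ring1
  · change P4c K e (lp K [4, 6, 0, 1]) = 0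
    rw [P4c_apply, sum_dc 6 2 (by decide), sum_dc 0 0 (by decide), sum_dc 0 (-1) (by decide),
      sum_dc 0 0 (by decide), sum_dc 0 0 (by decide)]
    fin_cases e <;> simp [lp, rst, line] <;> ring1
  · change P4c K e (lp K [4, 5, 0, 1]) = 0
    rw [P4c_apply, sum_dc 5 2 (by decide), sum_dc 4 2 (by decide), sum_dc 0 0 (by decide),
      sum_dc 0 (-1) (by decide), sum_dc 0 0 (by decide)]
    fin_cases e <;> simp [lp, rst, line] <;> ring1

theorem P4c_c (e e' : Fin 2) (h : e' ≠ e) : P4c K e (lp K (M4c e')) = 0 := by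
  fin_cases e'
  · change P4c K e (lp K [4, 5, 6, 1]) = 0
    rw [P4c_apply, sum_dc 0 0 (by decide), sum_dc 0 0 (by decide), sum_dc 5 (-1) (by decide),
      sum_dc 6 (-1) (by decide), sum_dc 0 0 (by decide)]
    fin_cases e
    · exact absurd rfl h
    · simp [lp, rst, line] <;> ring1
  · change P4c K e (lp K [4, 5, 6, 2]) = 0
    rw [P4c_apply, sum_dc 0 0 (by decide), sum_dc 0 0 (by decide), sum_dc 0 0 (by decide),
      sum_dc 6 1 (by decide), sum_dc 4 1 (by decide)]
    fin_cases e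
    · simp [lp, rst, line] <;> ring1
    · exact absurd rfl h

theorem P4c_d (e : Fin 2) : P4c K e (lp K (M4c e)) = C (-6) * lp K [4, 5, 6, 1, 2, 3] := by
  have h6 : (C (-6 : K) : MvPolynomial (Fin 3) K) = -6 := by
    rw [map_neg, map_ofNat]
  fin_cases e
  · change P4c K 0 (lp K [4, 5, 6, 1]) = _
    rw [P4c_apply, sum_dc 0 0 (by decide), sum_dc 0 0 (by decide), sum_dc 5 (-1) (by decide),
      sum_dc 6 (-1) (by decide), sum_dc 0 0 (by decide), h6]
    simp [lp, rst, line] <;> ring1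
  · change P4c K 1 (lp K [4, 5, 6, 2]) = _
    rw [P4c_apply, sum_dc 0 0 (by decide), sum_dc 0 0 (by decide), sum_dc 0 0 (by decide),
      sum_dc 6 1 (by decide), sum_dc 4 1 (by decide), h6]
    simp [lp, rst, line] <;> ring1

theorem tb4 [CharZero K] : HasTB K 4 := by
  refine ⟨Unit ⊕ Fin 3 ⊕ Fin 2 ⊕ Fin 9, inferInstance,
    Sum.elim (fun _ => 0) (Sum.elim (fun _ => 1) (Sum.elim (fun _ => 2) (fun _ => 3))),
    Sum.elim (fun _ => lp K [4, 5, 6, 0]) (Sum.elim (fun p => lp K (M4b p))
      (Sum.elim (fun e => lp K (M4c e)) (fun a => lp K (M4d a)))),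
    Sum.elim (fun _ => 1) (Sum.elim (fun p => dF (lp K (rst (p4 p))) (pt K (p4 p)))
      (Sum.elim (P4c K) (fun a => evF (lp K (rst a)) (pt K a)))), ?_, ?_⟩
  · refine TB.of_lists (L := Sum.elim (fun _ => [4, 5, 6, 0]) (Sum.elim (fun p => 0 :: rst (p4 p))
      (Sum.elim (fun _ => [4, 5, 6, 1, 2, 3]) rst)))
      (c := Sum.elim (fun _ => 1) (Sum.elim (fun p => (((![1, -1, -1] : Fin 3 → ℤ) p : ℤ) : K))
        (Sum.elim (fun _ => -6) (fun a => ((pv a (M4d a) : ℤ) : K))))) ?_ ?_ ?_ ?_ ?_ ?_ ?_ ?_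
    · rintro (_ | p | e | a)
      · exact lp_mem [4, 5, 6, 0]
      · have := lp_mem (K := K) (M4b p)
        rw [len4b] at this; exact this
      · have := lp_mem (K := K) (M4c e)
        rw [len4c] at this; exact this
      · have := lp_mem (K := K) (M4d a)
        rw [len4d] at this; exact this
    · rintro (_ | p | e | a)
      · exact good_id 4
      · exact good_dF' 4 (rst_good _)
      · exact good_P4c e
      · exact good_ev' 4 (rst_good a)
    · rintro (_ | p | e | a) (_ | q | e' | b) hne hr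
      · exact absurd rfl hne
      · exact absurd hr (by simp)
      · exact absurd hr (by simp)
      · exact absurd hr (by simp)
      · simp only [Sum.elim_inl, Sum.elim_inr]
        apply dF_lp_zero
        have : ∀ p t, dc (p4 p) [4, 5, 6, 0] t = 0 := by decide
        exact this p
      · simp only [Sum.elim_inl, Sum.elim_inr]
        apply dF_lp_zero
        have : ∀ p q, q ≠ p → ∀ t, dc (p4 p) (M4b q) t = 0 := by decide
        exact this p q (fun h => hne (by rw [h]))
      · exact absurd hr (by simp)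
      · exact absurd hr (by simp)
      · exact P4c_a e
      · exact P4c_b e q
      · exact P4c_c e e' (fun h => hne (by rw [h]))
      · exact absurd hr (by simp)
      · simp only [Sum.elim_inl, Sum.elim_inr]
        rw [evF_lp]
        have : ∀ a, pv a [4, 5, 6, 0] = 0 := by decide
        rw [this]; simp
      · simp only [Sum.elim_inl, Sum.elim_inr]
        rw [evF_lp]
        have : ∀ a q, pv a (M4b q) = 0 := by decide
        rw [this]; simp
      · simp only [Sum.elim_inl, Sum.elim_inr]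
        rw [evF_lp]
        have : ∀ a q, pv a (M4c q) = 0 := by decide
        rw [this]; simp
      · simp only [Sum.elim_inr]
        rw [evF_lp]
        have : ∀ a b, b ≠ a → pv a (M4d b) = 0 := by decide
        rw [this a b (fun h => hne (by rw [h]))]; simp
    · rintro (_ | p | e | a)
      · simp only [Sum.elim_inl]; decide
      · simp only [Sum.elim_inl, Sum.elim_inr]; revert p; decide
      · simp only [Sum.elim_inl, Sum.elim_inr]; decide
      · exact rst_nodup a
    · rintro (_ | p | e | a)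
      · exact one_ne_zero
      · have : ∀ p, (![1, -1, -1] : Fin 3 → ℤ) p ≠ 0 := by decide
        exact intCast_ne (this p)
      · simp
      · have : ∀ a, pv a (M4d a) ≠ 0 := by decide
        exact intCast_ne (this a)
    · rintro (_ | p | e | a)
      · simp
      · simp only [Sum.elim_inl, Sum.elim_inr]
        rw [dF_lp_single]
        revert p; decide
      · exact P4c_d e
      · simp only [Sum.elim_inr]; rw [evF_lp]
    · rintro (_ | p | e | a) i hi
      · exact ⟨[], by simp, by simpa using line_dvd_lp hi⟩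
      · by_cases h : i ∈ M4b p
        · exact ⟨[], by simp, by simpa using line_dvd_lp h⟩
        · refine ⟨[(1, Sum.inl ())], by simp, ?_⟩
          simp only [Sum.elim_inr, Sum.elim_inl, List.map_cons, List.map_nil, List.sum_cons,
            List.sum_nil, add_zero, one_smul]
          simp only [Sum.elim_inr, Sum.elim_inl] at hi
          revert h hi
          fin_cases p <;> fin_cases i <;> intro h1 h2 <;>
              first
              | exact absurd h1 (by decide)
              | exact absurd (by decide) h2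
              | (refine ⟨-(A2 K * A3 K * B1 K), ?_⟩; simp [lp, line, M4b, M4c, M4d, B1, B2, B3, B4, A1, A2, A3] <;> ring1)
              | (refine ⟨-(A1 K * A3 K * B1 K), ?_⟩; simp [lp, line, M4b, M4c, M4d, B1, B2, B3, B4, A1, A2, A3] <;> ring1)
              | (refine ⟨-(A1 K * A2 K * B1 K), ?_⟩; simp [lp, line, M4b, M4c, M4d, B1, B2, B3, B4, A1, A2, A3] <;> ring1)
      · by_cases h : i ∈ M4c e
        · exact ⟨[], by simp, by simpa using line_dvd_lp h⟩
        · simp only [Sum.elim_inr, Sum.elim_inl] at hi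
          have hi' : (e = 0 ∧ i = 2) ∨ (e = 0 ∧ i = 3) ∨ (e = 1 ∧ i = 1) ∨ (e = 1 ∧ i = 3) := by
            revert e i; decide
          rcases hi' with ⟨rfl, rfl⟩ | ⟨rfl, rfl⟩ | ⟨rfl, rfl⟩ | ⟨rfl, rfl⟩
          · refine ⟨[(-1, Sum.inr (Sum.inl 1))], by simp, A1 K * A3 K * B2 K, ?_⟩
            simp [lp, line, M4b, M4c, M4d, B1, B2, B3, B4, A1, A2, A3] <;> ring1
          · refine ⟨[(-1, Sum.inr (Sum.inl 2))], by simp, A1 K * A2 K * B2 K, ?_⟩
            simp [lp, line, M4b, M4c, M4d, B1, B2, B3, B4, A1, A2, A3] <;> ring1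
          · refine ⟨[(-1, Sum.inr (Sum.inl 0))], by simp, A2 K * A3 K * B3 K, ?_⟩
            simp [lp, line, M4b, M4c, M4d, B1, B2, B3, B4, A1, A2, A3] <;> ring1
          · refine ⟨[(1, Sum.inr (Sum.inl 2)), (1, Sum.inl ())], by simp, A1 K * A2 K * B3 K, ?_⟩
            simp [lp, line, M4b, M4c, M4d, B1, B2, B3, B4, A1, A2, A3] <;> ring1
      · by_cases h : i ∈ M4d a
        · exact ⟨[], by simp, by simpa using line_dvd_lp h⟩
        · simp only [Sum.elim_inr] at hi
          have hi' : (a = 6 ∧ i = 3) ∨ (a = 7 ∧ i = 3) ∨ (a = 8 ∧ i = 3) := by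
            revert a i; decide
          rcases hi' with ⟨rfl, rfl⟩ | ⟨rfl, rfl⟩ | ⟨rfl, rfl⟩
          · refine ⟨[(-1, Sum.inr (Sum.inl 2)), (-1, Sum.inl ())], by simp,
              -(A1 K * B1 K * B3 K), ?_⟩
            simp [lp, line, M4b, M4c, M4d, B1, B2, B3, B4, A1, A2, A3] <;> ring1
          · refine ⟨[(1, Sum.inr (Sum.inl 2))], by simp, -(A2 K * B1 K * B2 K), ?_⟩
            simp [lp, line, M4b, M4c, M4d, B1, B2, B3, B4, A1, A2, A3] <;> ring1
          · refine ⟨[(1, Sum.inr (Sum.inl 1))], by simp, -(A3 K * B1 K * B2 K), ?_⟩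
            simp [lp, line, M4b, M4c, M4d, B1, B2, B3, B4, A1, A2, A3] <;> ring1
    · simp; decide
  · simp; decide

end ShiFree
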