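import Pool.Agent.L5helper75.SH.Base

/-! The triangular basis of `Shi_2` for `m = 5`. -/

namespace ShiFree

open MvPolynomial

variable {K : Type*} [Field K]

/-- the six triple points -/
def tr (p : Fin 6) : Fin 9 := Fin.castLE (by decide) p

def be1 : Fin 6 → Fin 7 := ![0, 2, 0, 1, 0, 1]
def be2 : Fin 6 → Fin 7 := ![1, 3, 2, 3, 3, 2]
def aa : Fin 6 → Fin 7 := ![4, 4, 5, 5, 6, 6]
def dp : Fin 6 → Fin 9 := ![2, 2, 0, 0, 2, 0]
def sg5 : Fin 6 → ℤ := ![1, -1, 1, -1, 1, -1]

def M5a (p : Fin 6) : List (Fin 7) := be1 p :: rst (tr p)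
def M5b (p : Fin 6) : List (Fin 7) := be2 p :: rst (tr p)
def M5c : Fin 9 → List (Fin 7) :=
  ![2 :: rst 0, 0 :: rst 1, 1 :: rst 2, 0 :: rst 3, 1 :: rst 4, 0 :: rst 5, rst 6, rst 7, rst 8]

theorem len5a : ∀ a, (M5a a).length = 5 := by decide
theorem len5b : ∀ a, (M5b a).length = 5 := by decide
theorem len5c : ∀ a, (M5c a).length = 5 := by decide

theorem rel5 (p : Fin 6) : (sg5 p : MvPolynomial (Fin 3) K) * line K (aa p) =
    line K (be2 p) + line K (be1 p) := by
  fin_cases p <;> simp [sg5, aa, be1, be2, line, B1, B2, B3, B4, A1, A2, A3] <;> ring1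

theorem tb5 [CharZero K] : HasTB K 5 := by
  refine ⟨Fin 6 ⊕ Fin 6 ⊕ Fin 9, inferInstance,
    Sum.elim (fun _ => 0) (Sum.elim (fun _ => 1) (fun _ => 2)),
    Sum.elim (fun p => lp K (M5a p)) (Sum.elim (fun p => lp K (M5b p)) (fun a => lp K (M5c a))),
    Sum.elim (fun p => dF (lp K (rst (tr p))) (pt K (tr p)))
      (Sum.elim (fun p => dirF (lp K (be2 p :: aa p :: rst (tr p))) (pt K (tr p)) (pt K (dp p)))
        (fun a => evF (lp K (rst a)) (pt K a))), ?_, ?_⟩
  · refine TB.of_lists (L := Sum.elim (fun p => be1 p :: rst (tr p))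
      (Sum.elim (fun p => be2 p :: aa p :: rst (tr p)) rst))
      (c := Sum.elim (fun p => ((pv (tr p) (rst (tr p)) : ℤ) : K))
        (Sum.elim (fun p => ((∑ t, dc (tr p) (M5b p) t * val (dp p) t : ℤ) : K))
          (fun a => ((pv a (M5c a) : ℤ) : K)))) ?_ ?_ ?_ ?_ ?_ ?_ ?_ ?_
    · rintro (p | p | a)
      · have := lp_mem (K := K) (M5a p)
        rw [len5a] at this; exact this
      · have := lp_mem (K := K) (M5b p)
        rw [len5b] at this; exact this
      · have := lp_mem (K := K) (M5c a)
        rw [len5c] at this; exact this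
    · rintro (p | p | a)
      · exact good_dF' 5 (rst_good _)
      · refine good_dirF' 5 ?_
        revert p; decide
      · exact good_ev' 5 (rst_good a)
    · rintro (p | p | a) (q | q | b) hne hr
      · simp only [Sum.elim_inl]
        apply dF_lp_zero
        have : ∀ p q, q ≠ p → ∀ t, dc (tr p) (M5a q) t = 0 := by decide
        exact this p q (fun h => hne (by rw [h]))
      · exact absurd hr (by simp)
      · exact absurd hr (by simp)
      · simp only [Sum.elim_inl, Sum.elim_inr]
        rw [dirF_lp]
        have : ∀ p q, ∑ t, dc (tr p) (M5a q) t * val (dp p) t = 0 := by decide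
        rw [this]; simp
      · simp only [Sum.elim_inl, Sum.elim_inr]
        rw [dirF_lp]
        have : ∀ p q, q ≠ p → ∑ t, dc (tr p) (M5b q) t * val (dp p) t = 0 := by decide
        rw [this p q (fun h => hne (by rw [h]))]; simp
      · exact absurd hr (by simp)
      · simp only [Sum.elim_inl, Sum.elim_inr]
        rw [evF_lp]
        have : ∀ a q, pv a (M5a q) = 0 := by decide
        rw [this]; simp
      · simp only [Sum.elim_inl, Sum.elim_inr]
        rw [evF_lp]
        have : ∀ a q, pv a (M5b q) = 0 := by decide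
        rw [this]; simp
      · simp only [Sum.elim_inr]
        rw [evF_lp]
        have : ∀ a b, b ≠ a → pv a (M5c b) = 0 := by decide
        rw [this a b (fun h => hne (by rw [h]))]; simp
    · rintro (p | p | a)
      · simp only [Sum.elim_inl]; revert p; decide
      · simp only [Sum.elim_inl, Sum.elim_inr]; revert p; decide
      · exact rst_nodup a
    · rintro (p | p | a)
      · have : ∀ p, pv (tr p) (rst (tr p)) ≠ 0 := by decide
        exact intCast_ne (this p)
      · have : ∀ p, ∑ t, dc (tr p) (M5b p) t * val (dp p) t ≠ 0 := by decide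
        exact intCast_ne (this p)
      · have : ∀ a, pv a (M5c a) ≠ 0 := by decide
        exact intCast_ne (this a)
    · rintro (p | p | a)
      · simp only [Sum.elim_inl]
        rw [dF_lp_single]
        revert p; decide
      · simp only [Sum.elim_inl, Sum.elim_inr]
        rw [dirF_lp]
      · simp only [Sum.elim_inr]; rw [evF_lp]
    · rintro (p | p | a) i hi
      · exact ⟨[], by simp, by simpa [M5a] using line_dvd_lp hi⟩
      · by_cases h : i ∈ M5b p
        · exact ⟨[], by simp, by simpa using line_dvd_lp h⟩
        · refine ⟨[(1, Sum.inl p)], by simp, ?_⟩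
          simp only [Sum.elim_inr, Sum.elim_inl, List.map_cons, List.map_nil, List.sum_cons,
            List.sum_nil, add_zero, one_smul]
          simp only [Sum.elim_inr, Sum.elim_inl] at hi
          have hia : i = aa p := by
            rcases List.mem_cons.mp hi with h1 | h1
            · exact absurd (by rw [h1]; exact List.mem_cons_self) h
            · rcases List.mem_cons.mp h1 with h1 | h1
              · exact h1
              · exact absurd (List.mem_cons_of_mem _ h1) h
          have e1 : lp K (M5b p) = line K (be2 p) * lp K (rst (tr p)) := by simp [lp, M5b]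
          have e2 : lp K (M5a p) = line K (be1 p) * lp K (rst (tr p)) := by simp [lp, M5a]
          rw [e1, e2, ← add_mul, ← rel5, hia]
          exact ⟨(sg5 p : MvPolynomial (Fin 3) K) * lp K (rst (tr p)), by ring⟩
      · refine ⟨[], by simp, ?_⟩
        have : ∀ a, ∀ i ∈ rst a, i ∈ M5c a := by decide
        simpa using line_dvd_lp (this a i hi)
    · simp; decide
  · simp; decide

end ShiFree
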