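import Mathlib

/-! Definitions for the higher-order freeness of Shi arrangements (MP_5ef5ec_co). -/

namespace ShiFree

open MvPolynomial

/-- `∂^a = ∂_1^{a_1} ⋯ ∂_n^{a_n}` as an element of `End_K(S)`, `S = K[x_1, …, x_n]`; the product
and the powers are those of the ring `End_K(S)`. -/
noncomputable def partialPow (K : Type*) [Field K] {n : ℕ} (a : Fin n → ℕ) :
    Module.End K (MvPolynomial (Fin n) K) :=
  (List.ofFn fun i =>
    ((pderiv i : Derivation K (MvPolynomial (Fin n) K) (MvPolynomial (Fin n) K)) :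
      Module.End K (MvPolynomial (Fin n) K)) ^ a i).prod

/-- `D^(m)(S) = ⊕_{|a| = m} S ∂^a`, the `S`-submodule of `End_K(S)` (with `S` acting by
multiplication on the left) spanned by the `∂^a` with `|a| = m`. -/
noncomputable def opModule (K : Type*) [Field K] (n m : ℕ) :
    Submodule (MvPolynomial (Fin n) K) (Module.End K (MvPolynomial (Fin n) K)) :=
  Submodule.span _ {θ | ∃ a : Fin n → ℕ, ∑ i, a i = m ∧ θ = partialPow K a}

/-- `D^(m)(𝒜) = {θ ∈ D^(m)(S) : θ(QS) ⊆ QS}` for the arrangement with defining polynomial `Q`. -/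
noncomputable def arrModule (K : Type*) [Field K] {n : ℕ} (m : ℕ) (Q : MvPolynomial (Fin n) K) :
    Submodule (MvPolynomial (Fin n) K) (Module.End K (MvPolynomial (Fin n) K)) where
  carrier := {θ | θ ∈ opModule K n m ∧ ∀ f, Q ∣ θ (Q * f)}
  add_mem' := by
    rintro a b ⟨ha, ha'⟩ ⟨hb, hb'⟩
    exact ⟨add_mem ha hb, fun f => by
      rw [LinearMap.add_apply]; exact dvd_add (ha' f) (hb' f)⟩
  zero_mem' := ⟨zero_mem _, fun f => by simp⟩
  smul_mem' := by
    rintro c a ⟨ha, ha'⟩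
    exact ⟨Submodule.smul_mem _ c ha, fun f => by
      rw [LinearMap.smul_apply, smul_eq_mul]; exact Dvd.dvd.mul_left (ha' f) c⟩

/-- The arrangement with defining polynomial `Q` is `m`-free: `D^(m)(𝒜)` is a free `S`-module. -/
def IsMFree (K : Type*) [Field K] {n : ℕ} (m : ℕ) (Q : MvPolynomial (Fin n) K) : Prop :=
  Module.Free (MvPolynomial (Fin n) K) (arrModule K m Q)

/-- The defining polynomial of `Shi_ℓ` in `K[x_1, …, x_ℓ, z]`; the variable `x_i` is
`X i.castSucc` and `z` is `X (Fin.last ℓ)`: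
`z ∏_i x_i (x_i - z) ∏_{i<j} (x_i - x_j)(x_i - x_j - z)`. -/
noncomputable def shi (K : Type*) [Field K] (ℓ : ℕ) : MvPolynomial (Fin (ℓ + 1)) K :=
  X (Fin.last ℓ) * (∏ i : Fin ℓ, (X i.castSucc * (X i.castSucc - X (Fin.last ℓ)))) *
    ∏ p ∈ Finset.univ.filter (fun p : Fin ℓ × Fin ℓ => p.1 < p.2),
      ((X p.1.castSucc - X p.2.castSucc) *
        (X p.1.castSucc - X p.2.castSucc - X (Fin.last ℓ)))

end ShiFree
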