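import Pool.Agent.L5helper75.SH.Neg2

/-! The family of linear forms of `Shi_ℓ`. -/

namespace ShiFree

open MvPolynomial

/-- the index type of the Shi arrangement -/
abbrev Idx (ℓ : ℕ) : Type :=
  Unit ⊕ Fin ℓ ⊕ Fin ℓ ⊕ {p : Fin ℓ × Fin ℓ // p.1 < p.2} ⊕ {p : Fin ℓ × Fin ℓ // p.1 < p.2}

/-- the linear forms of the Shi arrangement -/
noncomputable def form (K : Type*) [Field K] (ℓ : ℕ) : Idx ℓ → MvPolynomial (Fin (ℓ + 1)) K
  | .inl _ => X (Fin.last ℓ)
  | .inr (.inl i) => X i.castSucc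
  | .inr (.inr (.inl i)) => X i.castSucc - X (Fin.last ℓ)
  | .inr (.inr (.inr (.inl p))) => X p.1.1.castSucc - X p.1.2.castSucc
  | .inr (.inr (.inr (.inr p))) => X p.1.1.castSucc - X p.1.2.castSucc - X (Fin.last ℓ)

variable {K : Type*} [Field K] {ℓ : ℕ}

theorem shi_eq : shi K ℓ = ∏ i, form K ℓ i := by
  rw [Fintype.prod_sum_type, Fintype.prod_sum_type, Fintype.prod_sum_type, Fintype.prod_sum_type]
  rw [shi, Finset.prod_mul_distrib, Finset.prod_mul_distrib]
  rw [Finset.prod_subtype (p := fun p : Fin ℓ × Fin ℓ => p.1 < p.2) (Finset.univ.filter fun p : Fin ℓ × Fin ℓ => p.1 < p.2)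
      (by intro x; simp) (fun p => (X p.1.castSucc - X p.2.castSucc : MvPolynomial (Fin (ℓ + 1)) K)),
    Finset.prod_subtype (p := fun p : Fin ℓ × Fin ℓ => p.1 < p.2) (Finset.univ.filter fun p : Fin ℓ × Fin ℓ => p.1 < p.2)
      (by intro x; simp) (fun p => (X p.1.castSucc - X p.2.castSucc - X (Fin.last ℓ) :
        MvPolynomial (Fin (ℓ + 1)) K))]
  simp only [form, Finset.univ_unique, Finset.prod_singleton]
  ring

theorem form_mem (i : Idx ℓ) : form K ℓ i ∈ W K (ℓ + 1) 1 := by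
  match i with
  | .inl _ => exact X_mem_W _
  | .inr (.inl i) => exact X_mem_W _
  | .inr (.inr (.inl i)) => exact sub_mem (X_mem_W _) (X_mem_W _)
  | .inr (.inr (.inr (.inl p))) => exact sub_mem (X_mem_W _) (X_mem_W _)
  | .inr (.inr (.inr (.inr p))) => exact sub_mem (sub_mem (X_mem_W _) (X_mem_W _)) (X_mem_W _)

theorem dvd_linear {n : ℕ} {a b : MvPolynomial (Fin n) K} (ha : a ∈ W K n 1) (hb : b ∈ W K n 1)
    (h : a ∣ b) : ∃ c : K, ∀ p : Fin n → K, eval p b = c * eval p a := by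
  obtain ⟨g, hg, rfl⟩ := hom_quot (e := 1) (d := 0) ha hb h
  obtain ⟨c, rfl⟩ := W_zero hg
  exact ⟨c, fun p => by rw [map_mul, eval_C, mul_comm]⟩

theorem form_not_dvd [CharZero K] (a b : Idx ℓ) (hab : a ≠ b) : ¬ form K ℓ a ∣ form K ℓ b := by
  intro hdv
  obtain ⟨c, hc⟩ := dvd_linear (form_mem a) (form_mem b) hdv
  have hz := hc (Pi.single (Fin.last ℓ) 1)
  have hk : ∀ k : Fin ℓ, _ := fun k => hc (Pi.single k.castSucc 1)
  clear hc hdv
  have hl : ∀ k : Fin ℓ, Fin.last ℓ ≠ k.castSucc := fun k => (Fin.castSucc_lt_last k).ne'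
  have hl' : ∀ k : Fin ℓ, k.castSucc ≠ Fin.last ℓ := fun k => (Fin.castSucc_lt_last k).ne
  match a, b, hab with
  | .inl _, .inl _, hab => exact hab rfl
  | .inl _, .inr (.inl j), _ =>
    have h1 := hk j
    simp [form, Pi.single_apply, hl] at h1
  | .inl _, .inr (.inr (.inl j)), _ =>
    have h1 := hk j
    simp [form, Pi.single_apply, hl] at h1
  | .inl _, .inr (.inr (.inr (.inl ⟨(j, k), h⟩))), _ =>
    have h1 := hk j
    have := h.ne
    simp [form, Pi.single_apply, hl] at h1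
    grind
  | .inl _, .inr (.inr (.inr (.inr ⟨(j, k), h⟩))), _ =>
    have h1 := hk j
    have := h.ne
    simp [form, Pi.single_apply, hl] at h1
    grind
  | .inr (.inl i), .inl _, _ =>
    have h1 := hk i
    simp [form, Pi.single_apply, hl, hl'] at h1 hz
  | .inr (.inl i), .inr (.inl j), hab =>
    have h1 := hk j
    simp [form, Pi.single_apply, hl, hl'] at h1 hz
    grind
  | .inr (.inl i), .inr (.inr (.inl j)), _ =>
    simp [form, Pi.single_apply, hl, hl'] at hz
  | .inr (.inl i), .inr (.inr (.inr (.inl ⟨(j, k), h⟩))), _ =>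
    have h1 := hk j
    have h2 := hk k
    have := h.ne
    simp [form, Pi.single_apply, hl, hl'] at h1 h2 hz
    grind
  | .inr (.inl i), .inr (.inr (.inr (.inr ⟨(j, k), h⟩))), _ =>
    simp [form, Pi.single_apply, hl, hl'] at hz
  | .inr (.inr (.inl i)), .inl _, _ =>
    have h1 := hk i
    simp [form, Pi.single_apply, hl, hl'] at h1 hz
    grind
  | .inr (.inr (.inl i)), .inr (.inl j), hab =>
    have h1 := hk j
    simp [form, Pi.single_apply, hl, hl'] at h1 hz
    grind
  | .inr (.inr (.inl i)), .inr (.inr (.inl j)), _ =>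
    have h1 := hk j
    simp [form, Pi.single_apply, hl, hl'] at h1 hz
    grind
  | .inr (.inr (.inl i)), .inr (.inr (.inr (.inl ⟨(j, k), h⟩))), _ =>
    have h1 := hk j
    have h2 := hk k
    have := h.ne
    simp [form, Pi.single_apply, hl, hl'] at h1 h2 hz
    grind
  | .inr (.inr (.inl i)), .inr (.inr (.inr (.inr ⟨(j, k), h⟩))), _ =>
    have h1 := hk j
    have h2 := hk k
    have := h.ne
    simp [form, Pi.single_apply, hl, hl'] at h1 h2 hz
    grind
  | .inr (.inr (.inr (.inl ⟨(i, i'), h'⟩))), .inl _, _ =>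
    have h1 := hk i
    have := h'.ne
    simp [form, Pi.single_apply, hl, hl'] at h1 hz
  | .inr (.inr (.inr (.inl ⟨(i, i'), h'⟩))), .inr (.inl j), hab =>
    have h1 := hk i
    have h2 := hk i'
    have h3 := hk j
    have := h'.ne
    simp [form, Pi.single_apply, hl, hl'] at h1 h2 h3 hz
    grind
  | .inr (.inr (.inr (.inl ⟨(i, i'), h'⟩))), .inr (.inr (.inl j)), _ =>
    simp [form, Pi.single_apply, hl, hl'] at hz
  | .inr (.inr (.inr (.inl ⟨(i, i'), h'⟩))), .inr (.inr (.inr (.inl ⟨(j, k), h⟩))), hab =>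
    have h1 := hk j
    have h2 := hk k
    have h3 := hk i
    have h4 := hk i'
    have := h.ne
    have := h'.ne
    simp [form, Pi.single_apply, hl, hl'] at h1 h2 h3 h4 hz hab
    grind
  | .inr (.inr (.inr (.inl ⟨(i, i'), h'⟩))), .inr (.inr (.inr (.inr ⟨(j, k), h⟩))), _ =>
    simp [form, Pi.single_apply, hl, hl'] at hz
  | .inr (.inr (.inr (.inr ⟨(i, i'), h'⟩))), .inl _, _ =>
    have h1 := hk i
    have := h'.ne
    simp [form, Pi.single_apply, hl, hl'] at h1 hz
    grind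
  | .inr (.inr (.inr (.inr ⟨(i, i'), h'⟩))), .inr (.inl j), hab =>
    have h1 := hk i
    have h2 := hk i'
    have h3 := hk j
    have := h'.ne
    simp [form, Pi.single_apply, hl, hl'] at h1 h2 h3 hz
    grind
  | .inr (.inr (.inr (.inr ⟨(i, i'), h'⟩))), .inr (.inr (.inl j)), _ =>
    have h1 := hk i
    have h2 := hk i'
    have h3 := hk j
    have := h'.ne
    simp [form, Pi.single_apply, hl, hl'] at h1 h2 h3 hz
    grind
  | .inr (.inr (.inr (.inr ⟨(i, i'), h'⟩))), .inr (.inr (.inr (.inl ⟨(j, k), h⟩))), hab =>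
    have h1 := hk j
    have h2 := hk k
    have := h.ne
    have := h'.ne
    simp [form, Pi.single_apply, hl, hl'] at h1 h2 hz hab
    grind
  | .inr (.inr (.inr (.inr ⟨(i, i'), h'⟩))), .inr (.inr (.inr (.inr ⟨(j, k), h⟩))), hab =>
    have h1 := hk j
    have h2 := hk k
    have h3 := hk i
    have h4 := hk i'
    have := h.ne
    have := h'.ne
    simp [form, Pi.single_apply, hl, hl'] at h1 h2 h3 h4 hz hab
    grind

end ShiFree
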