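import Pool.Agent.L5helper75.SH.NegFin
import Pool.Agent.L5helper75.SH.Base4

/-! Assembly: `Shi_ℓ` is `m`-free (`m ≥ 3`, `ℓ ≥ 2`) if and only if `ℓ = 2`. -/

namespace ShiFree

open MvPolynomial

variable {K : Type*} [Field K]

theorem shi_two : shi K 2 = ∏ j, line K j := by
  have hf : Finset.univ.filter (fun p : Fin 2 × Fin 2 => p.1 < p.2) = {(0, 1)} := by decide
  rw [shi, hf, Finset.prod_singleton]
  have e0 : (Fin.castSucc (0 : Fin 2)) = (0 : Fin 3) := rfl
  have e1 : (Fin.castSucc (1 : Fin 2)) = (1 : Fin 3) := rfl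
  have e2 : Fin.last 2 = (2 : Fin 3) := rfl
  simp only [Fin.prod_univ_succ, Fin.prod_univ_zero]
  simp [line, B1, B2, B3, B4, A1, A2, A3, e2]
  ring

theorem hasTB [CharZero K] : ∀ m, 3 ≤ m → HasTB K m := by
  have h : ∀ m, HasTB K (m + 5) := by
    intro m
    induction m with
    | zero => exact tb5
    | succ m ih =>
      have := step m ih
      have e : m + 5 + 1 = m + 1 + 5 := by ring
      rw [e] at this; exact this
  intro m hm
  rcases (by omega : m = 3 ∨ m = 4 ∨ 5 ≤ m) with rfl | rfl | h5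
  · exact tb3
  · exact tb4
  · obtain ⟨k, rfl⟩ := Nat.exists_eq_add_of_le h5
    rw [add_comm]; exact h k

theorem isMFree_shi_two [CharZero K] (m : ℕ) (hm : 3 ≤ m) : IsMFree K m (shi K 2) := by
  obtain ⟨m, rfl⟩ := Nat.exists_eq_succ_of_ne_zero (by omega : m ≠ 0)
  obtain ⟨κ, _, r, f, F, hT, -⟩ := hasTB (K := K) (m + 1) hm
  rw [shi_two]
  exact hT.isMFree line_arr

theorem main [CharZero K] (m ℓ : ℕ) (hm : 3 ≤ m) (hℓ : 2 ≤ ℓ) :
    IsMFree K m (shi K ℓ) ↔ ℓ = 2 := by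
  constructor
  · intro h
    by_contra hne
    obtain ⟨l, rfl⟩ := Nat.exists_eq_add_of_le (by omega : 3 ≤ ℓ)
    obtain ⟨k, rfl⟩ := Nat.exists_eq_add_of_le (by omega : 2 ≤ m)
    have := not_isMFree_shi (K := K) l k
    rw [add_comm 2 k, add_comm 3 l] at h
    exact this h
  · rintro rfl
    exact isMFree_shi_two m hm

end ShiFree
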