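import Pool.Agent.L5helper75.SH.TB

/-! The seven lines of `Shi_2` (up to sign). -/

namespace ShiFree

open MvPolynomial

variable {K : Type*} [Field K]


noncomputable def B1 (K : Type*) [Field K] : MvPolynomial (Fin 3) K := X 2
noncomputable def B2 (K : Type*) [Field K] : MvPolynomial (Fin 3) K := X 0 - X 2
noncomputable def B3 (K : Type*) [Field K] : MvPolynomial (Fin 3) K := - X 1
noncomputable def B4 (K : Type*) [Field K] : MvPolynomial (Fin 3) K := X 1 - X 0
noncomputable def A1 (K : Type*) [Field K] : MvPolynomial (Fin 3) K := X 0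
noncomputable def A2 (K : Type*) [Field K] : MvPolynomial (Fin 3) K := X 2 - X 1
noncomputable def A3 (K : Type*) [Field K] : MvPolynomial (Fin 3) K := X 2 + X 1 - X 0

/-- the seven lines -/
noncomputable def line (K : Type*) [Field K] : Fin 7 → MvPolynomial (Fin 3) K :=
  ![B1 K, B2 K, B3 K, B4 K, A1 K, A2 K, A3 K]

theorem X_mem_W {n : ℕ} (i : Fin n) : (X i : MvPolynomial (Fin n) K) ∈ W K n 1 :=
  isHomogeneous_X K i

theorem line_mem (j : Fin 7) : line K j ∈ W K 3 1 := by
  fin_cases j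
  · exact X_mem_W 2
  · exact sub_mem (X_mem_W 0) (X_mem_W 2)
  · exact neg_mem (X_mem_W 1)
  · exact sub_mem (X_mem_W 1) (X_mem_W 0)
  · exact X_mem_W 0
  · exact sub_mem (X_mem_W 2) (X_mem_W 1)
  · exact sub_mem (add_mem (X_mem_W 2) (X_mem_W 1)) (X_mem_W 0)

theorem not_dvd_of_eval {n : ℕ} {a b : MvPolynomial (Fin n) K} (p : Fin n → K)
    (h : eval p a = 0) (h' : eval p b ≠ 0) : ¬ a ∣ b := by
  rintro ⟨c, rfl⟩
  rw [map_mul, h, zero_mul] at h'
  exact h' rfl

theorem ne_zero_of_eval {n : ℕ} {a : MvPolynomial (Fin n) K} (p : Fin n → K)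
    (h : eval p a ≠ 0) : a ≠ 0 := by
  rintro rfl
  exact h (map_zero _)

/-- points lying on exactly one line -/
def sp (K : Type*) [Field K] : Fin 7 → Fin 3 → K :=
  ![![1, -1, 0], ![1, 3, 1], ![2, 0, -1], ![2, 2, -1], ![0, 2, 1], ![3, 1, 1], ![3, 1, 2]]

theorem eval_sp [CharZero K] (i j : Fin 7) (h : i ≠ j) : eval (sp K i) (line K j) ≠ 0 := by
  fin_cases i <;> fin_cases j <;>
    first
    | (exact absurd rfl h)
    | (simp [sp, line, B1, B2, B3, B4, A1, A2, A3]; try norm_num)

theorem eval_sp_self (i : Fin 7) : eval (sp K i) (line K i) = 0 := by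
  fin_cases i <;> (simp [sp, line, B1, B2, B3, B4, A1, A2, A3]; try norm_num)

theorem line_arr [CharZero K] : Arr (line K) where
  lin := line_mem
  ne := fun i => by
    by_cases h : i = 0
    · subst h; exact ne_zero_of_eval _ (eval_sp 1 0 (by decide))
    · exact ne_zero_of_eval _ (eval_sp 0 i (Ne.symm h))
  nd := fun i j h => not_dvd_of_eval (sp K i) (eval_sp_self i) (eval_sp i j h)

end ShiFree
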