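import Pool.Agent.L5helper75.SH.Defs

/-! The module `D^(m)(𝒜)` in terms of values on the forms of degree `m`. -/

namespace ShiFree

open MvPolynomial

variable {K : Type*} [Field K] {n : ℕ}


/-- forms of degree m -/
noncomputable abbrev W (K : Type*) [Field K] (n m : ℕ) : Submodule K (MvPolynomial (Fin n) K) :=
  homogeneousSubmodule (Fin n) K m

/-- The product `∂_{i_1} ∘ ⋯ ∘ ∂_{i_m}` attached to a list of indices. -/
noncomputable def partials (K : Type*) [Field K] {n : ℕ} (L : List (Fin n)) :
    Module.End K (MvPolynomial (Fin n) K) :=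
  (L.map fun i => ((pderiv i : Derivation K (MvPolynomial (Fin n) K) (MvPolynomial (Fin n) K)) :
    Module.End K (MvPolynomial (Fin n) K))).prod

theorem partials_nil : partials K ([] : List (Fin n)) = 1 := rfl

theorem partials_cons (i : Fin n) (L : List (Fin n)) :
    partials K (i :: L) = (pderiv i : Derivation K (MvPolynomial (Fin n) K) (MvPolynomial (Fin n) K)).toLinearMap * partials K L := by
  simp [partials]

theorem partials_append (L M : List (Fin n)) :
    partials K (L ++ M) = partials K L * partials K M := by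
  simp [partials]

theorem partials_cons_apply (i : Fin n) (L : List (Fin n)) (f : (MvPolynomial (Fin n) K)) :
    partials K (i :: L) f = pderiv i (partials K L f) := by
  rw [partials_cons]; rfl

theorem partials_single_apply (i : Fin n) (f : (MvPolynomial (Fin n) K)) :
    partials K [i] f = pderiv i f := by
  rw [partials_cons_apply, partials_nil]; rfl

theorem partials_flatten (Ls : List (List (Fin n))) :
    partials K Ls.flatten = (Ls.map (partials K)).prod := by
  induction Ls with
  | nil => rfl
  | cons L Ls ih => rw [List.flatten_cons, partials_append, ih, List.map_cons, List.prod_cons]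

theorem partials_replicate (k : ℕ) (i : Fin n) : partials K (List.replicate k i) =
    ((pderiv i : Derivation K (MvPolynomial (Fin n) K) (MvPolynomial (Fin n) K)) :
      Module.End K (MvPolynomial (Fin n) K)) ^ k := by
  rw [partials, List.map_replicate, List.prod_replicate]

/-- the sorted list with prescribed multiplicities -/
def flat (a : Fin n → ℕ) : List (Fin n) := (List.ofFn fun i => List.replicate (a i) i).flatten

theorem partialPow_eq (a : Fin n → ℕ) : partialPow K a = partials K (flat a) := by
  rw [flat, partials_flatten, List.map_ofFn, partialPow]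
  congr 2
  funext i
  exact (partials_replicate (a i) i).symm

theorem length_flat (a : Fin n → ℕ) : (flat a).length = ∑ i, a i := by
  rw [flat, List.length_flatten, List.map_ofFn, List.sum_ofFn]
  simp

theorem pderiv_comm (i j : Fin n) (f : MvPolynomial (Fin n) K) :
    pderiv i (pderiv j f) = pderiv j (pderiv i f) := by
  have h : ⁅(pderiv i : Derivation K (MvPolynomial (Fin n) K) (MvPolynomial (Fin n) K)),
      (pderiv j : Derivation K (MvPolynomial (Fin n) K) (MvPolynomial (Fin n) K))⁆ = 0 := by
    apply MvPolynomial.derivation_ext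
    intro k
    rw [Derivation.commutator_apply, pderiv_X, pderiv_X, Derivation.zero_apply]
    by_cases h1 : k = i <;> by_cases h2 : k = j <;> simp [Pi.single_apply, h1, h2, eq_comm] <;>
      split_ifs <;> simp
  have h2 := congrArg (fun D : Derivation K (MvPolynomial (Fin n) K) (MvPolynomial (Fin n) K) => D f) h
  rw [← sub_eq_zero]
  rw [← Derivation.commutator_apply]
  exact h2

theorem partials_perm {L M : List (Fin n)} (h : L.Perm M) : partials K L = partials K M := by
  refine List.Perm.prod_eq' (h.map _) ?_
  refine List.pairwise_of_forall_mem_list ?_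
  intro x hx y hy
  obtain ⟨i, _, rfl⟩ := List.mem_map.mp hx
  obtain ⟨j, _, rfl⟩ := List.mem_map.mp hy
  exact LinearMap.ext fun f => pderiv_comm i j f

theorem perm_flat (L : List (Fin n)) : L.Perm (flat fun i => L.count i) := by
  rw [List.perm_iff_count]
  intro j
  rw [flat, List.count_flatten, List.map_ofFn, List.sum_ofFn, Finset.sum_eq_single j]
  · simp
  · intro i _ hi
    simp [List.count_replicate, hi]
  · intro h; exact absurd (Finset.mem_univ j) h

theorem opModule_eq (m : ℕ) : opModule K n m = Submodule.span (MvPolynomial (Fin n) K)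
    {θ | ∃ L : List (Fin n), L.length = m ∧ θ = partials K L} := by
  rw [opModule]
  congr 1
  ext θ
  constructor
  · rintro ⟨a, ha, rfl⟩
    exact ⟨flat a, by rw [length_flat, ha], partialPow_eq a⟩
  · rintro ⟨L, hL, rfl⟩
    refine ⟨fun i => L.count i, ?_, ?_⟩
    · rw [← length_flat, ← (perm_flat L).length_eq, hL]
    · rw [partialPow_eq]; exact partials_perm (perm_flat L)

theorem partials_mem (L : List (Fin n)) {m : ℕ} (h : L.length = m) :
    partials K L ∈ opModule K n m := by
  rw [opModule_eq]; exact Submodule.subset_span ⟨L, h, rfl⟩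

/-- multiplication operator -/
noncomputable def mulOp (g : (MvPolynomial (Fin n) K)) : (Module.End K (MvPolynomial (Fin n) K)) := LinearMap.mulLeft K g

@[simp] theorem mulOp_apply (g f : (MvPolynomial (Fin n) K)) : mulOp g f = g * f := rfl

/-- commutator with `X k` -/
noncomputable def ad (k : Fin n) (θ : (Module.End K (MvPolynomial (Fin n) K))) : (Module.End K (MvPolynomial (Fin n) K)) := θ * mulOp (X k) - mulOp (X k) * θ

theorem ad_apply (k : Fin n) (θ : (Module.End K (MvPolynomial (Fin n) K))) (f : (MvPolynomial (Fin n) K)) : ad k θ f = θ (X k * f) - X k * θ f := rfl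

theorem ad_add (k : Fin n) (θ η : (Module.End K (MvPolynomial (Fin n) K))) : ad k (θ + η) = ad k θ + ad k η := by
  refine LinearMap.ext fun f => ?_; simp only [ad_apply, LinearMap.add_apply]; ring

theorem ad_smul (k : Fin n) (c : (MvPolynomial (Fin n) K)) (θ : (Module.End K (MvPolynomial (Fin n) K))) : ad k (c • θ) = c • ad k θ := by
  refine LinearMap.ext fun f => ?_; simp only [ad_apply, LinearMap.smul_apply, smul_eq_mul]; ring

theorem ad_zero (k : Fin n) : ad k (0 : (Module.End K (MvPolynomial (Fin n) K))) = 0 := by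
  refine LinearMap.ext fun f => ?_; simp [ad_apply]

/-- induction principle for the operator module -/
theorem op_induction {m : ℕ} {p : (Module.End K (MvPolynomial (Fin n) K)) → Prop} (h0 : p 0)
    (hadd : ∀ θ η, p θ → p η → p (θ + η)) (hsmul : ∀ (c : (MvPolynomial (Fin n) K)) θ, p θ → p (c • θ))
    (hL : ∀ L : List (Fin n), L.length = m → p (partials K L)) :
    ∀ θ ∈ opModule K n m, p θ := by
  intro θ hθ
  rw [opModule_eq] at hθ
  refine Submodule.span_induction (p := fun θ _ => p θ) ?_ h0 (fun a b _ _ => hadd a b)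
    (fun c a _ => hsmul c a) hθ
  rintro _ ⟨L, hL', rfl⟩
  exact hL L hL'

/-- K-span of products of partials -/
noncomputable def opK (K : Type*) [Field K] (n m : ℕ) :
    Submodule K (Module.End K (MvPolynomial (Fin n) K)) :=
  Submodule.span K {θ | ∃ L : List (Fin n), L.length = m ∧ θ = partials K L}

theorem opK_le {m : ℕ} {θ : (Module.End K (MvPolynomial (Fin n) K))} (h : θ ∈ opK K n m) : θ ∈ opModule K n m := by
  refine Submodule.span_induction (p := fun θ _ => θ ∈ opModule K n m) ?_ (zero_mem _)
    (fun a b _ _ ha hb => add_mem ha hb) (fun c a _ ha => ?_) h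
  · rintro _ ⟨L, hL', rfl⟩
    exact partials_mem L hL'
  · have : c • a = (C c : (MvPolynomial (Fin n) K)) • a := by
      refine LinearMap.ext fun f => ?_; simp [MvPolynomial.C_mul']
    rw [this]; exact Submodule.smul_mem _ _ ha

theorem opK_left {m : ℕ} (i : Fin n) {θ : (Module.End K (MvPolynomial (Fin n) K))} (h : θ ∈ opK K n m) :
    (pderiv i : Derivation K (MvPolynomial (Fin n) K) (MvPolynomial (Fin n) K)).toLinearMap * θ ∈ opK K n (m + 1) := by
  refine Submodule.span_induction
    (p := fun θ _ => (pderiv i : Derivation K (MvPolynomial (Fin n) K) (MvPolynomial (Fin n) K)).toLinearMap * θ ∈ opK K n (m + 1)) ?_ ?_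
    (fun a b _ _ ha hb => ?_) (fun c a _ ha => ?_) h
  · rintro _ ⟨L, hL', rfl⟩
    rw [← partials_cons]
    exact Submodule.subset_span ⟨i :: L, by simp [hL'], rfl⟩
  · rw [mul_zero]; exact zero_mem _
  · rw [mul_add]; exact add_mem ha hb
  · rw [mul_smul_comm]; exact Submodule.smul_mem _ _ ha

theorem ad_partials (k : Fin n) : ∀ (m : ℕ) (L : List (Fin n)), L.length = m + 1 →
    ad k (partials K L) ∈ opK K n m := by
  intro m
  induction m with
  | zero =>
    intro L hL
    obtain ⟨i, rfl⟩ := List.length_eq_one_iff.mp hL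
    have : ad k (partials K [i]) = (if i = k then (1 : K) else 0) • partials K ([] : List (Fin n)) := by
      refine LinearMap.ext fun f => ?_
      rw [ad_apply, partials_single_apply, partials_single_apply, (pderiv i).leibniz,
        pderiv_X, partials_nil]
      simp only [smul_eq_mul, LinearMap.smul_apply, Module.End.one_apply]
      by_cases h : i = k
      · subst h; simp
      · rw [if_neg h, Pi.single_eq_of_ne (fun h' => h h'.symm)]; simp
    rw [this]
    exact Submodule.smul_mem _ _ (Submodule.subset_span ⟨[], rfl, rfl⟩)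
  | succ m ih =>
    intro L hL
    cases L with
    | nil => simp at hL
    | cons i L =>
      have hL' : L.length = m + 1 := by simpa using hL
      have : ad k (partials K (i :: L)) = (pderiv i : Derivation K (MvPolynomial (Fin n) K) (MvPolynomial (Fin n) K)).toLinearMap *
          ad k (partials K L) + (if i = k then (1 : K) else 0) • partials K L := by
        refine LinearMap.ext fun f => ?_
        rw [ad_apply, partials_cons_apply, partials_cons_apply]
        have e : ((pderiv i : Derivation K (MvPolynomial (Fin n) K) (MvPolynomial (Fin n) K)).toLinearMap * ad k (partials K L)) f =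
          pderiv i (ad k (partials K L) f) := rfl
        rw [LinearMap.add_apply, e, ad_apply, map_sub, (pderiv i).leibniz, pderiv_X]
        simp only [smul_eq_mul, LinearMap.smul_apply]
        by_cases h : i = k
        · subst h; simp; ring
        · rw [if_neg h, Pi.single_eq_of_ne (fun h' => h h'.symm)]; simp
      rw [this]
      exact add_mem (opK_left i (ih L hL'))
        (Submodule.smul_mem _ _ (Submodule.subset_span ⟨L, hL', rfl⟩))

theorem ad_mem {m : ℕ} (k : Fin n) {θ : (Module.End K (MvPolynomial (Fin n) K))} (h : θ ∈ opModule K n (m + 1)) :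
    ad k θ ∈ opModule K n m := by
  refine op_induction (p := fun θ => ad k θ ∈ opModule K n m) ?_ ?_ ?_ ?_ θ h
  · rw [ad_zero]; exact zero_mem _
  · intro a b ha hb; rw [ad_add]; exact add_mem ha hb
  · intro c a ha; rw [ad_smul]; exact Submodule.smul_mem _ _ ha
  · intro L hL; exact opK_le (ad_partials k m L hL)

theorem op_zero {θ : (Module.End K (MvPolynomial (Fin n) K))} (h : θ ∈ opModule K n 0) : ∃ s : (MvPolynomial (Fin n) K), ∀ f, θ f = s * f := by
  refine op_induction (p := fun θ : (Module.End K (MvPolynomial (Fin n) K)) => ∃ s : (MvPolynomial (Fin n) K), ∀ f, θ f = s * f) ?_ ?_ ?_ ?_ θ h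
  · exact ⟨0, fun f => by simp⟩
  · rintro a b ⟨s, hs⟩ ⟨t, ht⟩
    exact ⟨s + t, fun f => by rw [LinearMap.add_apply, hs, ht]; ring⟩
  · rintro c a ⟨s, hs⟩
    exact ⟨c * s, fun f => by rw [LinearMap.smul_apply, hs, smul_eq_mul]; ring⟩
  · intro L hL
    rw [List.length_eq_zero_iff] at hL
    subst hL
    exact ⟨1, fun f => by rw [partials_nil]; simp⟩

theorem op_one_leibniz {θ : (Module.End K (MvPolynomial (Fin n) K))} (h : θ ∈ opModule K n 1) (f g : (MvPolynomial (Fin n) K)) :
    θ (f * g) = f * θ g + g * θ f := by
  refine op_induction (p := fun θ : (Module.End K (MvPolynomial (Fin n) K)) => ∀ f g, θ (f * g) = f * θ g + g * θ f) ?_ ?_ ?_ ?_ θ h f g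
  · intro f g; simp
  · intro a b ha hb f g; rw [LinearMap.add_apply, LinearMap.add_apply, LinearMap.add_apply, ha, hb]; ring
  · intro c a ha f g
    rw [LinearMap.smul_apply, LinearMap.smul_apply, LinearMap.smul_apply, ha]
    simp only [smul_eq_mul]; ring
  · intro L hL f g
    obtain ⟨i, rfl⟩ := List.length_eq_one_iff.mp hL
    rw [partials_single_apply, partials_single_apply, partials_single_apply, (pderiv i).leibniz]
    simp [smul_eq_mul]

theorem op_C {m : ℕ} {θ : (Module.End K (MvPolynomial (Fin n) K))} (h : θ ∈ opModule K n (m + 1)) (c : K) : θ (C c) = 0 := by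
  refine op_induction (p := fun θ : (Module.End K (MvPolynomial (Fin n) K)) => θ (C c) = 0) ?_ ?_ ?_ ?_ θ h
  · simp
  · intro a b ha hb; rw [LinearMap.add_apply, ha, hb, add_zero]
  · intro d a ha; rw [LinearMap.smul_apply, ha, smul_zero]
  · clear h θ
    induction m with
    | zero =>
      intro L hL
      obtain ⟨i, rfl⟩ := List.length_eq_one_iff.mp hL
      rw [partials_single_apply, pderiv_C]
    | succ m ih =>
      intro L hL
      cases L with
      | nil => simp at hL
      | cons i L =>
        rw [partials_cons_apply, ih L (by simpa using hL), map_zero]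

/-- induction on the degree for forms -/
theorem hom_succ_induction {d : ℕ} {p : (MvPolynomial (Fin n) K) → Prop} (h0 : p 0)
    (hadd : ∀ f g, p f → p g → p (f + g)) (hX : ∀ k, ∀ g ∈ W K n d, p (X k * g)) :
    ∀ f ∈ W K n (d + 1), p f := by
  intro f hf
  rw [f.as_sum]
  refine Finset.sum_induction _ p hadd h0 (fun s hs => ?_)
  have hs' : s.degree = d + 1 := by
    have := hf (mem_support_iff.mp hs)
    rwa [Finsupp.degree_eq_weight_one]
  have hne : s ≠ 0 := by rintro rfl; simp at hs'
  obtain ⟨k, hk⟩ := Finsupp.ne_iff.mp hne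
  have hk' : 1 ≤ s k := Nat.one_le_iff_ne_zero.mpr hk
  have hle : Finsupp.single k 1 ≤ s := by
    rw [Finsupp.single_le_iff]; exact hk'
  have e : s = Finsupp.single k 1 + (s - Finsupp.single k 1) := (add_tsub_cancel_of_le hle).symm
  have e2 : monomial s (coeff s f) = X k * monomial (s - Finsupp.single k 1) (coeff s f) := by
    rw [X, monomial_mul, one_mul, ← e]
  rw [e2]
  apply hX
  rw [mem_homogeneousSubmodule]
  apply isHomogeneous_monomial
  have := congrArg Finsupp.degree e
  rw [map_add, Finsupp.degree_single, hs'] at this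
  omega

theorem W_zero {f : (MvPolynomial (Fin n) K)} (hf : f ∈ W K n 0) : ∃ c, f = C c := by
  rw [mem_homogeneousSubmodule, ← totalDegree_zero_iff_isHomogeneous,
    totalDegree_eq_zero_iff_eq_C] at hf
  exact ⟨_, hf⟩

theorem X_mul_mem {d : ℕ} (k : Fin n) {g : (MvPolynomial (Fin n) K)} (hg : g ∈ W K n d) : X k * g ∈ W K n (d + 1) := by
  rw [mem_homogeneousSubmodule] at *
  rw [add_comm]
  exact (isHomogeneous_X K k).mul hg

theorem op_low : ∀ (d m : ℕ) {θ : (Module.End K (MvPolynomial (Fin n) K))}, θ ∈ opModule K n m → d < m → ∀ f ∈ W K n d, θ f = 0 := by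
  intro d
  induction d with
  | zero =>
    intro m θ hθ hm f hf
    obtain ⟨c, rfl⟩ := W_zero hf
    obtain ⟨m, rfl⟩ := Nat.exists_eq_succ_of_ne_zero (by omega : m ≠ 0)
    exact op_C hθ c
  | succ d ih =>
    intro m θ hθ hm
    obtain ⟨m, rfl⟩ := Nat.exists_eq_succ_of_ne_zero (by omega : m ≠ 0)
    refine hom_succ_induction (map_zero _) (fun f g hf hg => by rw [map_add, hf, hg, add_zero]) ?_
    intro k g hg
    have h1 := ih m (ad_mem k hθ) (by omega) g hg
    have h2 := ih (m + 1) hθ (by omega) g hg
    rw [ad_apply, h2, mul_zero, sub_zero] at h1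
    exact h1

theorem op_injective : ∀ (m : ℕ) {θ : (Module.End K (MvPolynomial (Fin n) K))}, θ ∈ opModule K n m → (∀ f ∈ W K n m, θ f = 0) → θ = 0 := by
  intro m
  induction m with
  | zero =>
    intro θ hθ h
    obtain ⟨s, hs⟩ := op_zero hθ
    have h1 := h 1 (isHomogeneous_one _ _)
    rw [hs, mul_one] at h1
    refine LinearMap.ext fun f => ?_
    rw [hs, h1]; simp
  | succ m ih =>
    intro θ hθ h
    have hk : ∀ k, ad k θ = 0 := by
      intro k
      apply ih (ad_mem k hθ)
      intro g hg
      rw [ad_apply, h _ (X_mul_mem k hg), op_low m (m + 1) hθ (by omega) g hg]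
      simp
    refine LinearMap.ext fun f => ?_
    rw [LinearMap.zero_apply]
    induction f using MvPolynomial.induction_on with
    | C a => exact op_C hθ a
    | add p q hp hq => rw [map_add, hp, hq, add_zero]
    | mul_X p k hp =>
      have := congrArg (fun η : (Module.End K (MvPolynomial (Fin n) K)) => η p) (hk k)
      simp only [ad_apply, hp, mul_zero, sub_zero, LinearMap.zero_apply] at this
      rw [mul_comm]; exact this

theorem op_mul_pderiv {m : ℕ} (k : Fin n) {θ : (Module.End K (MvPolynomial (Fin n) K))} (h : θ ∈ opModule K n m) :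
    θ * (pderiv k : Derivation K (MvPolynomial (Fin n) K) (MvPolynomial (Fin n) K)).toLinearMap ∈ opModule K n (m + 1) := by
  refine op_induction
    (p := fun θ : (Module.End K (MvPolynomial (Fin n) K)) => θ * (pderiv k : Derivation K (MvPolynomial (Fin n) K) (MvPolynomial (Fin n) K)).toLinearMap ∈ opModule K n (m + 1))
    ?_ ?_ ?_ ?_ θ h
  · rw [zero_mul]; exact zero_mem _
  · intro a b ha hb; rw [add_mul]; exact add_mem ha hb
  · intro c a ha; rw [smul_mul_assoc]; exact Submodule.smul_mem _ _ ha
  · intro L hL
    have e : (pderiv k : Derivation K (MvPolynomial (Fin n) K) (MvPolynomial (Fin n) K)).toLinearMap = partials K [k] := by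
      rw [partials_cons, partials_nil, mul_one]
    rw [e, ← partials_append]
    exact partials_mem _ (by simp [hL])

theorem op_surjective [CharZero K] : ∀ (m : ℕ) (φ : (Module.End K (MvPolynomial (Fin n) K))), ∃ θ ∈ opModule K n m,
    ∀ f ∈ W K n m, θ f = φ f := by
  intro m
  induction m with
  | zero =>
    intro φ
    refine ⟨(φ 1) • partials K [], Submodule.smul_mem _ _ (partials_mem _ rfl), ?_⟩
    intro f hf
    obtain ⟨c, rfl⟩ := W_zero hf
    rw [partials_nil, LinearMap.smul_apply, Module.End.one_apply]
    have : (C c : (MvPolynomial (Fin n) K)) = c • (1 : (MvPolynomial (Fin n) K)) := by rw [MvPolynomial.smul_eq_C_mul, mul_one]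
    rw [this, map_smul, smul_eq_mul, mul_smul_comm, mul_one]
  | succ m ih =>
    intro φ
    choose θ hθ hθ' using fun k : Fin n => ih (φ * mulOp (X k))
    refine ⟨(C ((m + 1 : K)⁻¹) : (MvPolynomial (Fin n) K)) • ∑ k, θ k * (pderiv k : Derivation K (MvPolynomial (Fin n) K) (MvPolynomial (Fin n) K)).toLinearMap,
      Submodule.smul_mem _ _ (Submodule.sum_mem _ fun k _ => op_mul_pderiv k (hθ k)), ?_⟩
    intro f hf
    have hE := IsHomogeneous.sum_X_mul_pderiv hf
    rw [LinearMap.smul_apply, LinearMap.sum_apply]
    have h1 : ∀ k, (θ k * (pderiv k : Derivation K (MvPolynomial (Fin n) K) (MvPolynomial (Fin n) K)).toLinearMap) f = φ (X k * pderiv k f) := by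
      intro k
      have : (θ k * (pderiv k : Derivation K (MvPolynomial (Fin n) K) (MvPolynomial (Fin n) K)).toLinearMap) f = θ k (pderiv k f) := rfl
      rw [this, hθ' k _ (IsHomogeneous.pderiv hf)]
      rfl
    simp_rw [h1]
    rw [← map_sum, hE, map_nsmul, smul_eq_mul, ← MvPolynomial.smul_eq_C_mul]
    rw [← Nat.cast_smul_eq_nsmul K, smul_smul, Nat.cast_succ, inv_mul_cancel₀, one_smul]
    exact_mod_cast Nat.succ_ne_zero m

theorem linear_mul_mem {d : ℕ} {α g : (MvPolynomial (Fin n) K)} (hα : α ∈ W K n 1) (hg : g ∈ W K n d) :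
    α * g ∈ W K n (d + 1) := by
  rw [mem_homogeneousSubmodule] at *
  rw [add_comm]
  exact hα.mul hg

attribute [local instance] MvPolynomial.gradedAlgebra

/-- homogeneous quotients -/
theorem hom_quot {d e : ℕ} {α f : (MvPolynomial (Fin n) K)} (hα : α ∈ W K n e) (hf : f ∈ W K n (e + d)) (h : α ∣ f) :
    ∃ g ∈ W K n d, f = α * g := by
  obtain ⟨g, rfl⟩ := h
  have h1 := DirectSum.coe_decompose_mul_add_of_left_mem (𝒜 := homogeneousSubmodule (Fin n) K)
    (i := e) (j := d) (a := α) (b := g) hα
  rw [DirectSum.decompose_of_mem_same _ hf] at h1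
  exact ⟨_, SetLike.coe_mem _, h1⟩

/-- from operators to values -/
theorem dvd_of_preserves {α Q Q' : (MvPolynomial (Fin n) K)} (hα : Prime α) (hα1 : α ∈ W K n 1) (hQ : Q = α * Q')
    (hQ' : ¬ α ∣ Q') : ∀ (m : ℕ) {θ : (Module.End K (MvPolynomial (Fin n) K))}, θ ∈ opModule K n (m + 1) → (∀ f, Q ∣ θ (Q * f)) →
    ∀ g ∈ W K n m, α ∣ θ (α * g) := by
  intro m
  induction m with
  | zero =>
    intro θ hθ h g hg
    obtain ⟨c, rfl⟩ := W_zero hg
    have h1 : Q ∣ θ Q := by simpa using h 1
    have h2 : α ∣ θ (α * Q') := by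
      rw [← hQ]; exact (Dvd.intro _ hQ.symm).trans h1
    rw [op_one_leibniz hθ] at h2
    have h3 : α ∣ Q' * θ α := (dvd_add_right (Dvd.intro _ rfl)).mp h2
    have h4 : α ∣ θ α := (hα.dvd_or_dvd h3).resolve_left hQ'
    rw [op_one_leibniz hθ, op_C hθ, mul_zero, zero_add]
    exact Dvd.dvd.mul_left h4 _
  | succ m ih =>
    intro θ hθ h
    refine hom_succ_induction (by simp) (fun f g hf hg => by rw [mul_add, map_add]; exact dvd_add hf hg) ?_
    intro k g hg
    have h1 := ih (ad_mem k hθ) (fun f => by
      rw [ad_apply]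
      have e1 : X k * (Q * f) = Q * (X k * f) := by ring
      rw [e1]
      exact dvd_sub (h _) (Dvd.dvd.mul_left (h f) _)) g hg
    rw [ad_apply, op_low (m + 1) (m + 1 + 1) hθ (by omega) (α * g) (linear_mul_mem hα1 hg)] at h1
    have e2 : α * (X k * g) = X k * (α * g) := by ring
    rw [e2]
    simpa using h1

/-- from values to operators -/
theorem preserves_of_dvd {α : (MvPolynomial (Fin n) K)} (hα1 : α ∈ W K n 1) : ∀ (m : ℕ) {θ : (Module.End K (MvPolynomial (Fin n) K))}, θ ∈ opModule K n m →
    (∀ f ∈ W K n m, α ∣ f → α ∣ θ f) → ∀ h, α ∣ θ (α * h) := by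
  intro m
  induction m with
  | zero =>
    intro θ hθ _ h
    obtain ⟨s, hs⟩ := op_zero hθ
    rw [hs]
    exact ⟨s * h, by ring⟩
  | succ m ih =>
    intro θ hθ hh h
    have hk : ∀ k h, α ∣ ad k θ (α * h) := by
      intro k
      apply ih (ad_mem k hθ)
      intro f hf hd
      rw [ad_apply, op_low m (m + 1) hθ (by omega) f hf, mul_zero, sub_zero]
      exact hh _ (X_mul_mem k hf) (Dvd.dvd.mul_left hd _)
    induction h using MvPolynomial.induction_on with
    | C a =>
      cases m with
      | zero =>
        apply hh _ _ (Dvd.intro _ rfl)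
        rw [mul_comm, ← MvPolynomial.smul_eq_C_mul]
        exact Submodule.smul_mem _ _ hα1
      | succ m =>
        rw [op_low 1 (m + 1 + 1) hθ (by omega)]
        · exact dvd_zero _
        · rw [mul_comm, ← MvPolynomial.smul_eq_C_mul]
          exact Submodule.smul_mem _ _ hα1
    | add p q hp hq => rw [mul_add, map_add]; exact dvd_add hp hq
    | mul_X p k hp =>
      have h1 := hk k p
      rw [ad_apply] at h1
      have e : α * (p * X k) = X k * (α * p) := by ring
      rw [e]
      have := dvd_add h1 (Dvd.dvd.mul_left hp (X k))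
      simpa using this

end ShiFree
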