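import Pool.Agent.L5helper75.SH.Lines

/-! `Shi_ℓ`, `ℓ ≥ 3`, is not `m`-free for any `m ≥ 2`. -/

namespace ShiFree

open MvPolynomial

variable {K : Type*} [Field K] {n : ℕ}


/-- the restriction to the four chosen variables, the last one as polynomial variable -/
noncomputable def Phi (i1 i2 iz it : Fin n) : (MvPolynomial (Fin n) K) →ₐ[K] Polynomial (MvPolynomial (Fin 3) K) :=
  aeval (fun i => if i = i1 then Polynomial.C (X 0) else if i = i2 then Polynomial.C (X 1)
    else if i = iz then Polynomial.C (X 2) else if i = it then Polynomial.X else 0)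

/-- the inclusion of the polynomials in the three chosen variables -/
noncomputable def inc (i1 i2 iz : Fin n) : MvPolynomial (Fin 3) K →ₐ[K] (MvPolynomial (Fin n) K) :=
  aeval ![X i1, X i2, X iz]

/-- coefficient of `t^k` -/
noncomputable def bar (i1 i2 iz it : Fin n) (k : ℕ) : (MvPolynomial (Fin n) K) →ₗ[K] MvPolynomial (Fin 3) K :=
  ((Polynomial.lcoeff (MvPolynomial (Fin 3) K) k).restrictScalars K).comp
    (Phi i1 i2 iz it).toLinearMap

structure Dist (i1 i2 iz it : Fin n) : Prop where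
  h12 : i1 ≠ i2
  h1z : i1 ≠ iz
  h1t : i1 ≠ it
  h2z : i2 ≠ iz
  h2t : i2 ≠ it
  hzt : iz ≠ it

variable {i1 i2 iz it : Fin n}

theorem bar_apply (k : ℕ) (f : (MvPolynomial (Fin n) K)) : bar i1 i2 iz it k f = (Phi i1 i2 iz it f).coeff k := rfl

theorem Phi_inc (hd : Dist i1 i2 iz it) (g : (MvPolynomial (Fin 3) K)) :
    Phi i1 i2 iz it (inc i1 i2 iz g) = Polynomial.C g := by
  have : (Phi i1 i2 iz it).comp (inc i1 i2 iz) =
      (Polynomial.CAlgHom : MvPolynomial (Fin 3) K →ₐ[K] Polynomial (MvPolynomial (Fin 3) K)) := by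
    apply MvPolynomial.algHom_ext
    intro i
    fin_cases i
    · simp [Phi, inc]
    · simp [Phi, inc, hd.h12.symm]
    · simp [Phi, inc, hd.h1z.symm, hd.h2z.symm]
  exact congrArg (fun f => f g) this

theorem bar_inc_mul (hd : Dist i1 i2 iz it) (k : ℕ) (g : (MvPolynomial (Fin 3) K)) (f : (MvPolynomial (Fin n) K)) :
    bar i1 i2 iz it k (inc i1 i2 iz g * f) = g * bar i1 i2 iz it k f := by
  rw [bar_apply, bar_apply, map_mul, Phi_inc hd, Polynomial.coeff_C_mul]

theorem bar_pow (hd : Dist i1 i2 iz it) (k : ℕ) :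
    bar i1 i2 iz it k ((X it : (MvPolynomial (Fin n) K)) ^ k) = 1 := by
  rw [bar_apply, map_pow]
  have : Phi (K := K) i1 i2 iz it (X it) = Polynomial.X := by
    simp [Phi, hd.h1t.symm, hd.h2t.symm, hd.hzt.symm]
  rw [this, Polynomial.coeff_X_pow, if_pos rfl]

theorem bar_inc_pow (hd : Dist i1 i2 iz it) (k : ℕ) (g : (MvPolynomial (Fin 3) K)) :
    bar i1 i2 iz it k (inc i1 i2 iz g * (X it : (MvPolynomial (Fin n) K)) ^ k) = g := by
  rw [bar_inc_mul hd, bar_pow hd, mul_one]

theorem inc_mem {g : (MvPolynomial (Fin 3) K)} {d : ℕ} (hg : g ∈ W K 3 d) : inc i1 i2 iz g ∈ W K n d := by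
  rw [mem_homogeneousSubmodule] at *
  have h := hg.aeval (fun i => (![X i1, X i2, X iz] : Fin 3 → (MvPolynomial (Fin n) K)) i) (n := 1) (fun i => by
    fin_cases i <;> exact isHomogeneous_X K _)
  rwa [one_mul] at h

theorem coeff_Phi_mem (i1 i2 iz it : Fin n) : ∀ (d : ℕ) (f : (MvPolynomial (Fin n) K)), f ∈ W K n d → ∀ j,
    (∀ e, j + e = d → (Phi i1 i2 iz it f).coeff j ∈ W K 3 e) ∧
    (d < j → (Phi i1 i2 iz it f).coeff j = 0) := by
  intro d
  induction d with
  | zero =>
    intro f hf j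
    obtain ⟨c, rfl⟩ := W_zero hf
    have h1 : Phi (K := K) i1 i2 iz it (C c) = Polynomial.C (C c) := by
      have := (Phi (K := K) i1 i2 iz it).commutes c
      exact this
    rw [h1]
    constructor
    · intro e he
      obtain ⟨rfl, rfl⟩ : j = 0 ∧ e = 0 := by omega
      rw [Polynomial.coeff_C_zero]
      exact isHomogeneous_C _ _
    · intro hj
      rw [Polynomial.coeff_C, if_neg (by omega)]
  | succ d ih =>
    refine hom_succ_induction ?_ ?_ ?_
    · intro j; simp
    · intro f g hf hg j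
      rw [map_add, Polynomial.coeff_add]
      exact ⟨fun e he => add_mem ((hf j).1 e he) ((hg j).1 e he), fun hj => by
        rw [(hf j).2 hj, (hg j).2 hj, add_zero]⟩
    · intro k g hg j
      have hC : ∀ i : Fin 3, (∀ e, j + e = d + 1 →
            (Polynomial.C (X i : (MvPolynomial (Fin 3) K)) * Phi i1 i2 iz it g).coeff j ∈ W K 3 e) ∧
          (d + 1 < j → (Polynomial.C (X i : (MvPolynomial (Fin 3) K)) * Phi i1 i2 iz it g).coeff j = 0) := by
        intro i
        rw [Polynomial.coeff_C_mul]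
        constructor
        · intro e he
          cases e with
          | zero => rw [(ih g hg j).2 (by omega), mul_zero]; exact zero_mem _
          | succ e => exact X_mul_mem i ((ih g hg j).1 e (by omega))
        · intro hj; rw [(ih g hg j).2 (by omega), mul_zero]
      rw [map_mul]
      have hX : Phi (K := K) i1 i2 iz it (X k) = if k = i1 then Polynomial.C (X 0) else
          if k = i2 then Polynomial.C (X 1) else if k = iz then Polynomial.C (X 2) else
          if k = it then Polynomial.X else 0 := by simp [Phi]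
      rw [hX]
      split_ifs
      · exact hC 0
      · exact hC 1
      · exact hC 2
      · constructor
        · intro e he
          cases j with
          | zero => rw [Polynomial.coeff_X_mul_zero]; exact zero_mem _
          | succ j => rw [Polynomial.coeff_X_mul]; exact (ih g hg j).1 e (by omega)
        · intro hj
          obtain ⟨j, rfl⟩ := Nat.exists_eq_succ_of_ne_zero (by omega : j ≠ 0)
          rw [Nat.succ_eq_add_one, Polynomial.coeff_X_mul]; exact (ih g hg j).2 (by omega)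
      · rw [zero_mul, Polynomial.coeff_zero]
        exact ⟨fun _ _ => zero_mem _, fun _ => rfl⟩

theorem bar_mem (k : ℕ) {f : (MvPolynomial (Fin n) K)} (hf : f ∈ W K n (k + 2)) : bar i1 i2 iz it k f ∈ W K 3 2 :=
  (coeff_Phi_mem i1 i2 iz it (k + 2) f hf k).1 2 rfl

/-- interpolation of quadratic forms in the six points `B_i ∩ B_j` -/
theorem interp (g : (MvPolynomial (Fin 3) K)) (hg : g ∈ W K 3 2) :
    g = - (B3 K * B4 K * C (eval ![0, 1, 0] g) + B1 K * B2 K * C (eval ![0, 0, 1] g) +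
      B2 K * B4 K * C (eval ![1, 0, 0] g) + B1 K * B3 K * C (eval ![1, 1, 1] g) +
      B2 K * B3 K * C (eval ![1, 1, 0] g) + B1 K * B4 K * C (eval ![1, 0, 1] g)) := by
  revert g
  refine hom_succ_induction (by simp) ?_ ?_
  · intro f g hf hg
    simp only [map_add, mul_add]
    linear_combination hf + hg
  · intro k
    refine hom_succ_induction (by simp) ?_ ?_
    · intro f g hf hg
      rw [mul_add]
      simp only [map_add, mul_add]
      linear_combination hf + hg
    · intro l g hg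
      obtain ⟨c, rfl⟩ := W_zero hg
      fin_cases k <;> fin_cases l <;>
        (simp [B1, B2, B3, B4]; try ring)

/-- the substitution argument for prime ideals generated by two linear forms -/
theorem mem_of_mul_mem (ψ : (MvPolynomial (Fin n) K) →ₐ[K] (MvPolynomial (Fin n) K)) (y z : (MvPolynomial (Fin n) K)) (hX : ∀ i, X i - ψ (X i) ∈ Ideal.span {y, z})
    (hy : ψ y = 0) (hz : ψ z = 0) {x : (MvPolynomial (Fin n) K)} (hx : ψ x ≠ 0) {c : (MvPolynomial (Fin n) K)}
    (h : x * c ∈ Ideal.span {y, z}) : c ∈ Ideal.span {y, z} := by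
  have h1 : ψ (x * c) = 0 := by
    obtain ⟨a, b, hab⟩ := Ideal.mem_span_pair.mp h
    rw [← hab, map_add, map_mul, map_mul, hy, hz]; simp
  rw [map_mul] at h1
  have h2 : ψ c = 0 := (mul_eq_zero.mp h1).resolve_left hx
  have h3 : ∀ f : (MvPolynomial (Fin n) K), f - ψ f ∈ Ideal.span {y, z} := by
    intro f
    induction f using MvPolynomial.induction_on with
    | C a =>
      have : ψ (C a) = C a := ψ.commutes a
      rw [this, sub_self]; exact zero_mem _
    | add p q hp hq =>
      have e : p + q - ψ (p + q) = (p - ψ p) + (q - ψ q) := by rw [map_add]; ring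
      rw [e]; exact add_mem hp hq
    | mul_X p i hp =>
      have e : p * X i - ψ (p * X i) = (p - ψ p) * X i + ψ p * (X i - ψ (X i)) := by
        rw [map_mul]; ring
      rw [e]
      exact add_mem (Ideal.mul_mem_right _ _ hp) (Ideal.mul_mem_left _ _ (hX i))
  have := h3 c
  rwa [h2, sub_zero] at this


section L

variable (i1 i2 iz it) (m : ℕ)

/-- the family of the seven lines in `n` variables -/
noncomputable def nline (K : Type*) [Field K] (i1 i2 iz : Fin n) (j : Fin 7) :
    MvPolynomial (Fin n) K := inc i1 i2 iz (line K j)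

end L

theorem inc_injective (h12 : i1 ≠ i2) (h1z : i1 ≠ iz) (h2z : i2 ≠ iz) :
    Function.Injective (inc (K := K) i1 i2 iz) := by
  let r : (MvPolynomial (Fin n) K) →ₐ[K] (MvPolynomial (Fin 3) K) := aeval fun i => if i = i1 then X 0 else if i = i2 then X 1 else
    if i = iz then X 2 else 0
  have : r.comp (inc i1 i2 iz) = AlgHom.id K (MvPolynomial (Fin 3) K) := by
    apply MvPolynomial.algHom_ext
    intro i
    fin_cases i
    · simp [r, inc]
    · simp [r, inc, h12.symm]
    · simp [r, inc, h1z.symm, h2z.symm]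
  have h2 : Function.LeftInverse r (inc i1 i2 iz) := fun x => congrArg (fun f => f x) this
  exact h2.injective

theorem nline_arr [CharZero K] (h12 : i1 ≠ i2) (h1z : i1 ≠ iz) (h2z : i2 ≠ iz) :
    Arr (nline K i1 i2 iz) where
  lin := fun i => inc_mem (line_mem i)
  ne := fun i => by
    rw [nline, Ne, map_eq_zero_iff _ (inc_injective h12 h1z h2z)]
    exact line_arr.ne i
  nd := fun i j h => by
    rintro ⟨c, hc⟩
    let r : (MvPolynomial (Fin n) K) →ₐ[K] (MvPolynomial (Fin 3) K) := aeval fun i => if i = i1 then X 0 else if i = i2 then X 1 else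
      if i = iz then X 2 else 0
    have h1 : r.comp (inc i1 i2 iz) = AlgHom.id K (MvPolynomial (Fin 3) K) := by
      apply MvPolynomial.algHom_ext
      intro i
      fin_cases i
      · simp [r, inc]
      · simp [r, inc, h12.symm]
      · simp [r, inc, h1z.symm, h2z.symm]
    have h2 : ∀ x, r (inc i1 i2 iz x) = x := fun x => congrArg (fun f => f x) h1
    have h3 := congrArg r hc
    rw [map_mul, nline, nline, h2, h2] at h3
    exact line_arr.nd i j h ⟨_, h3⟩

/-- The main constraint. -/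
theorem L_constraint [CharZero K] (hd : Dist i1 i2 iz it) {k : ℕ} {θ : (Module.End K (MvPolynomial (Fin n) K))}
    (h : Good (nline K i1 i2 iz) (k + 2) θ)
    (b1 b2 b3 b4 a1 a2 a3 t : (MvPolynomial (Fin n) K)) (hb1 : b1 = X iz) (hb2 : b2 = X i1 - X iz) (hb3 : b3 = - X i2)
    (hb4 : b4 = X i2 - X i1) (ha1 : a1 = X i1) (ha2 : a2 = X iz - X i2)
    (ha3 : a3 = X iz + X i2 - X i1) (ht : t = (X it) ^ k) :
    ∃ s1 s2, a1 * (b2 * θ (b3 * b4 * t) - b4 * θ (b2 * b3 * t)) +
      a2 * (b3 * θ (b2 * b4 * t) - b4 * θ (b2 * b3 * t)) =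
      b2 * b3 * b4 * a1 * a2 * (a3 * s1 + b1 * s2) := by
  have hA := nline_arr (K := K) hd.h12 hd.h1z hd.h2z
  have e0 : nline K i1 i2 iz 0 = b1 := by rw [hb1]; simp [nline, inc, line, B1]
  have e1 : nline K i1 i2 iz 1 = b2 := by rw [hb2]; simp [nline, inc, line, B2]
  have e2 : nline K i1 i2 iz 2 = b3 := by rw [hb3]; simp [nline, inc, line, B3]
  have e3 : nline K i1 i2 iz 3 = b4 := by rw [hb4]; simp [nline, inc, line, B4]
  have e4 : nline K i1 i2 iz 4 = a1 := by rw [ha1]; simp [nline, inc, line, A1]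
  have e5 : nline K i1 i2 iz 5 = a2 := by rw [ha2]; simp [nline, inc, line, A2]
  have e6 : nline K i1 i2 iz 6 = a3 := by rw [ha3]; simp [nline, inc, line, A3]
  have g1 : ∀ f ∈ W K n (k + 2), b2 ∣ f → b2 ∣ θ f := by rw [← e1]; exact h 1
  have g2 : ∀ f ∈ W K n (k + 2), b3 ∣ f → b3 ∣ θ f := by rw [← e2]; exact h 2
  have g3 : ∀ f ∈ W K n (k + 2), b4 ∣ f → b4 ∣ θ f := by rw [← e3]; exact h 3
  have g4 : ∀ f ∈ W K n (k + 2), a1 ∣ f → a1 ∣ θ f := by rw [← e4]; exact h 4
  have g5 : ∀ f ∈ W K n (k + 2), a2 ∣ f → a2 ∣ θ f := by rw [← e5]; exact h 5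
  have g6 : ∀ f ∈ W K n (k + 2), a3 ∣ f → a3 ∣ θ f := by rw [← e6]; exact h 6
  have m2 : b2 ∈ W K n 1 := by rw [← e1]; exact hA.lin 1
  have m3 : b3 ∈ W K n 1 := by rw [← e2]; exact hA.lin 2
  have m4 : b4 ∈ W K n 1 := by rw [← e3]; exact hA.lin 3
  have mt : t ∈ W K n k := by rw [ht]; exact isHomogeneous_X_pow _ _
  have mm : ∀ {u v : (MvPolynomial (Fin n) K)}, u ∈ W K n 1 → v ∈ W K n 1 → u * v * t ∈ W K n (k + 2) := by
    intro u v hu hv
    rw [mul_assoc]
    exact linear_mul_mem hu (linear_mul_mem hv mt)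
  -- the quotients
  have q34 : b3 * b4 ∣ θ (b3 * b4 * t) := by
    refine IsRelPrime.mul_dvd ?_ (g2 _ (mm m3 m4) ⟨b4 * t, by ring⟩) (g3 _ (mm m3 m4) ⟨b3 * t, by ring⟩)
    rw [← e2, ← e3]; exact hA.isRelPrime (by decide)
  have q24 : b2 * b4 ∣ θ (b2 * b4 * t) := by
    refine IsRelPrime.mul_dvd ?_ (g1 _ (mm m2 m4) ⟨b4 * t, by ring⟩) (g3 _ (mm m2 m4) ⟨b2 * t, by ring⟩)
    rw [← e1, ← e3]; exact hA.isRelPrime (by decide)
  have q23 : b2 * b3 ∣ θ (b2 * b3 * t) := by
    refine IsRelPrime.mul_dvd ?_ (g1 _ (mm m2 m3) ⟨b3 * t, by ring⟩) (g2 _ (mm m2 m3) ⟨b2 * t, by ring⟩)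
    rw [← e1, ← e2]; exact hA.isRelPrime (by decide)
  obtain ⟨c34, h34⟩ := q34
  obtain ⟨c24, h24⟩ := q24
  obtain ⟨c23, h23⟩ := q23
  -- relations
  have r1 : a1 ∣ c24 - c23 := by
    have h1 : a1 ∣ θ (b2 * b4 * t + b2 * b3 * t) := by
      apply g4 _ (add_mem (mm m2 m4) (mm m2 m3))
      refine ⟨- b2 * t, ?_⟩
      rw [hb2, hb3, hb4, ha1]; ring
    rw [map_add, h24, h23] at h1
    have h2 : b2 * b4 * c24 + b2 * b3 * c23 = b2 * (b4 * (c24 - c23)) - a1 * (b2 * c23) := by
      rw [hb2, hb3, hb4, ha1]; ring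
    rw [h2] at h1
    have h3 : a1 ∣ b2 * (b4 * (c24 - c23)) := by
      have := dvd_add h1 (Dvd.intro (b2 * c23) rfl : a1 ∣ a1 * (b2 * c23))
      simpa using this
    have hp : Prime a1 := by rw [← e4]; exact hA.prime 4
    rcases hp.dvd_or_dvd h3 with h4 | h4
    · rw [← e4, ← e1] at h4; exact absurd h4 (hA.nd 4 1 (by decide))
    · rcases hp.dvd_or_dvd h4 with h5 | h5
      · rw [← e4, ← e3] at h5; exact absurd h5 (hA.nd 4 3 (by decide))
      · exact h5
  have r2 : a2 ∣ c34 - c23 := by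
    have h1 : a2 ∣ θ (b3 * b4 * t + b2 * b3 * t) := by
      apply g5 _ (add_mem (mm m3 m4) (mm m2 m3))
      refine ⟨- b3 * t, ?_⟩
      rw [hb2, hb3, hb4, ha2]; ring
    rw [map_add, h34, h23] at h1
    have h2 : b3 * b4 * c34 + b2 * b3 * c23 = b3 * (b4 * (c34 - c23)) - a2 * (b3 * c23) := by
      rw [hb2, hb3, hb4, ha2]; ring
    rw [h2] at h1
    have h3 : a2 ∣ b3 * (b4 * (c34 - c23)) := by
      have := dvd_add h1 (Dvd.intro (b3 * c23) rfl : a2 ∣ a2 * (b3 * c23))
      simpa using this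
    have hp : Prime a2 := by rw [← e5]; exact hA.prime 5
    rcases hp.dvd_or_dvd h3 with h4 | h4
    · rw [← e5, ← e2] at h4; exact absurd h4 (hA.nd 5 2 (by decide))
    · rcases hp.dvd_or_dvd h4 with h5 | h5
      · rw [← e5, ← e3] at h5; exact absurd h5 (hA.nd 5 3 (by decide))
      · exact h5
  have r3 : a3 ∣ c34 - c24 := by
    have h1 : a3 ∣ θ (b3 * b4 * t + b2 * b4 * t) := by
      apply g6 _ (add_mem (mm m3 m4) (mm m2 m4))
      refine ⟨- b4 * t, ?_⟩
      rw [hb2, hb3, hb4, ha3]; ring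
    rw [map_add, h34, h24] at h1
    have h2 : b3 * b4 * c34 + b2 * b4 * c24 = b4 * (b3 * (c34 - c24)) - a3 * (b4 * c24) := by
      rw [hb2, hb3, hb4, ha3]; ring
    rw [h2] at h1
    have h3 : a3 ∣ b4 * (b3 * (c34 - c24)) := by
      have := dvd_add h1 (Dvd.intro (b4 * c24) rfl : a3 ∣ a3 * (b4 * c24))
      simpa using this
    have hp : Prime a3 := by rw [← e6]; exact hA.prime 6
    rcases hp.dvd_or_dvd h3 with h4 | h4
    · rw [← e6, ← e3] at h4; exact absurd h4 (hA.nd 6 3 (by decide))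
    · rcases hp.dvd_or_dvd h4 with h5 | h5
      · rw [← e6, ← e2] at h5; exact absurd h5 (hA.nd 6 2 (by decide))
      · exact h5
  obtain ⟨q, hq⟩ := r1
  obtain ⟨p, hp⟩ := r2
  obtain ⟨s, hs⟩ := r3
  have hmem : p + q ∈ Ideal.span {a3, b1} := by
    let ψ : (MvPolynomial (Fin n) K) →ₐ[K] (MvPolynomial (Fin n) K) := aeval fun i => if i = iz then 0 else if i = i1 then X i2 else X i
    have p1 : ψ (X iz) = 0 := by simp [ψ]
    have p2 : ψ (X i1) = X i2 := by simp [ψ, hd.h1z]
    have p3 : ψ (X i2) = X i2 := by simp [ψ, hd.h2z]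
    refine mem_of_mul_mem ψ a3 b1 ?_ ?_ ?_ (x := a2) ?_ ?_
    · intro i
      by_cases h1 : i = iz
      · subst h1; rw [p1, sub_zero, ← hb1]; exact Ideal.subset_span (by simp)
      · by_cases h2 : i = i1
        · subst h2; rw [p2]
          have : X i - X i2 = (-1) * a3 + 1 * b1 := by rw [ha3, hb1]; ring
          rw [this]
          exact add_mem (Ideal.mul_mem_left _ _ (Ideal.subset_span (by simp)))
            (Ideal.mul_mem_left _ _ (Ideal.subset_span (by simp)))
        · have : ψ (X i) = X i := by simp [ψ, h1, h2]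
          rw [this, sub_self]; exact zero_mem _
    · rw [ha3, map_sub, map_add, p1, p2, p3]; ring
    · rw [hb1, p1]
    · rw [ha2, map_sub, p1, p3, zero_sub, neg_ne_zero]; exact X_ne_zero _
    · rw [Ideal.mem_span_pair]
      refine ⟨s - q, 2 * q, ?_⟩
      have k1 : a3 * s = a2 * p - a1 * q := by rw [← hs, ← hq, ← hp]; ring
      have k2 : a1 + a2 + a3 = 2 * b1 := by rw [ha1, ha2, ha3, hb1]; ring
      linear_combination k1 - q * k2
  obtain ⟨s1, s2, hs12⟩ := Ideal.mem_span_pair.mp hmem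
  refine ⟨s1, s2, ?_⟩
  have e : a3 * s1 + b1 * s2 = p + q := by rw [← hs12]; ring
  rw [e, h34, h24, h23]
  linear_combination (a1 * b2 * b3 * b4) * hp + (a2 * b2 * b3 * b4) * hq

end ShiFree
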