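import Pool.Agent.L5helper75.SH.Neg

/-! `Shi_ℓ`, `ℓ ≥ 3`, is not `m`-free for any `m ≥ 2`: the main argument. -/

namespace ShiFree

open MvPolynomial

variable {K : Type*} [Field K] {n : ℕ}

/-- `f ↦ u R f̄(v)` -/
noncomputable def evOp (i1 i2 iz it : Fin n) (k : ℕ) (u : MvPolynomial (Fin n) K)
    (R : MvPolynomial (Fin 3) K) (v : Fin 3 → K) : Module.End K (MvPolynomial (Fin n) K) :=
  (LinearMap.mulLeft K (u * inc i1 i2 iz R)).comp
    ((Algebra.linearMap K (MvPolynomial (Fin n) K)).comp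
      ((aeval v : MvPolynomial (Fin 3) K →ₐ[K] K).toLinearMap.comp (bar i1 i2 iz it k)))

/-- `f ↦ u f̄` -/
noncomputable def incOp (i1 i2 iz it : Fin n) (k : ℕ) (u : MvPolynomial (Fin n) K) :
    Module.End K (MvPolynomial (Fin n) K) :=
  (LinearMap.mulLeft K u).comp
    ((inc i1 i2 iz : MvPolynomial (Fin 3) K →ₐ[K] MvPolynomial (Fin n) K).toLinearMap.comp
      (bar i1 i2 iz it k))

variable {i1 i2 iz it : Fin n}

theorem evOp_apply (k : ℕ) (u : MvPolynomial (Fin n) K) (R : MvPolynomial (Fin 3) K)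
    (v : Fin 3 → K) (f : MvPolynomial (Fin n) K) :
    evOp i1 i2 iz it k u R v f = u * inc i1 i2 iz R * C (eval v (bar i1 i2 iz it k f)) := by
  rfl

theorem incOp_apply (k : ℕ) (u : MvPolynomial (Fin n) K) (f : MvPolynomial (Fin n) K) :
    incOp i1 i2 iz it k u f = u * inc i1 i2 iz (bar i1 i2 iz it k f) := by
  rfl

section

variable {ι : Type*} {α : ι → MvPolynomial (Fin n) K} {u : MvPolynomial (Fin n) K}

theorem good_incOp (hd : Dist i1 i2 iz it) (m k : ℕ)
    (hcase : ∀ i, α i ∣ u ∨ ∃ j, α i ∣ nline K i1 i2 iz j ∧ nline K i1 i2 iz j ∣ α i) :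
    Good α m (incOp i1 i2 iz it k u) := by
  intro i f _ hdv
  rw [incOp_apply]
  rcases hcase i with h | ⟨j, h1, h2⟩
  · exact Dvd.dvd.mul_right h _
  · obtain ⟨g, hg⟩ := h2.trans hdv
    rw [hg, nline, bar_inc_mul hd, map_mul]
    exact Dvd.dvd.mul_left (Dvd.dvd.mul_right h1 _) _

theorem good_evOp (hd : Dist i1 i2 iz it) (m k : ℕ) (R : MvPolynomial (Fin 3) K) (v : Fin 3 → K)
    (hR : ∀ j, eval v (line K j) = 0 ∨ line K j ∣ R)
    (hcase : ∀ i, α i ∣ u ∨ ∃ j, α i ∣ nline K i1 i2 iz j ∧ nline K i1 i2 iz j ∣ α i) :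
    Good α m (evOp i1 i2 iz it k u R v) := by
  intro i f _ hdv
  rw [evOp_apply]
  rcases hcase i with h | ⟨j, h1, h2⟩
  · exact Dvd.dvd.mul_right (Dvd.dvd.mul_right h _) _
  · rcases hR j with h | h
    · obtain ⟨g, hg⟩ := h2.trans hdv
      rw [hg, nline, bar_inc_mul hd, map_mul, h, zero_mul, map_zero, mul_zero]
      exact dvd_zero _
    · apply Dvd.dvd.mul_right
      apply Dvd.dvd.mul_left
      obtain ⟨c, hc⟩ := h
      rw [hc, map_mul]
      exact Dvd.dvd.mul_right h1 _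

theorem neg_main [Fintype ι] [CharZero K] (hA : Arr α) (hd : Dist i1 i2 iz it)
    (p : Fin n → K) (hu : eval p u ≠ 0) (hp1 : p i1 = 0) (hp2 : p i2 = 0) (hpz : p iz = 0)
    (hcase : ∀ i, α i ∣ u ∨ ∃ j, α i ∣ nline K i1 i2 iz j ∧ nline K i1 i2 iz j ∣ α i)
    (hline : ∀ j, ∃ i, α i ∣ nline K i1 i2 iz j ∧ nline K i1 i2 iz j ∣ α i) (k : ℕ) :
    ¬ IsMFree K (k + 2) (∏ i, α i) := by
  intro hfree
  obtain ⟨E0, h0, h0'⟩ := hA.lift (m := k + 1) (good_incOp (it := it) hd (k + 2) k hcase)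
  have hR : ∀ v : Fin 3 → K, ∀ R : MvPolynomial (Fin 3) K,
      (∀ j, eval v (line K j) = 0 ∨ line K j ∣ R) → Good α (k + 2) (evOp i1 i2 iz it k u R v) :=
    fun v R h => good_evOp hd (k + 2) k R v h hcase
  obtain ⟨E12, h12, h12'⟩ := hA.lift (m := k + 1) (hR ![0, 1, 0] (A2 K * A3 K * B3 K * B4 K) (by
    intro j
    fin_cases j
    · left; simp [line, B1]
    · left; simp [line, B2]
    · right; exact ⟨A2 K * A3 K * B4 K, by simp [line]; ring⟩
    · right; exact ⟨A2 K * A3 K * B3 K, by simp [line]; ring⟩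
    · left; simp [line, A1]
    · right; exact ⟨A3 K * B3 K * B4 K, by simp [line]; ring⟩
    · right; exact ⟨A2 K * B3 K * B4 K, by simp [line]; ring⟩))
  obtain ⟨E34, h34, h34'⟩ := hA.lift (m := k + 1) (hR ![0, 0, 1] (A2 K * A3 K * B1 K * B2 K) (by
    intro j
    fin_cases j
    · right; exact ⟨A2 K * A3 K * B2 K, by simp [line]; ring⟩
    · right; exact ⟨A2 K * A3 K * B1 K, by simp [line]; ring⟩
    · left; simp [line, B3]
    · left; simp [line, B4]
    · left; simp [line, A1]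
    · right; exact ⟨A3 K * B1 K * B2 K, by simp [line]; ring⟩
    · right; exact ⟨A2 K * B1 K * B2 K, by simp [line]; ring⟩))
  obtain ⟨E13, h13, h13'⟩ := hA.lift (m := k + 1) (hR ![1, 0, 0] (A1 K * A3 K * B2 K * B4 K) (by
    intro j
    fin_cases j
    · left; simp [line, B1]
    · right; exact ⟨A1 K * A3 K * B4 K, by simp [line]; ring⟩
    · left; simp [line, B3]
    · right; exact ⟨A1 K * A3 K * B2 K, by simp [line]; ring⟩
    · right; exact ⟨A3 K * B2 K * B4 K, by simp [line]; ring⟩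
    · left; simp [line, A2]
    · right; exact ⟨A1 K * B2 K * B4 K, by simp [line]; ring⟩))
  obtain ⟨E24, h24, h24'⟩ := hA.lift (m := k + 1) (hR ![1, 1, 1] (A1 K * A3 K * B1 K * B3 K) (by
    intro j
    fin_cases j
    · right; exact ⟨A1 K * A3 K * B3 K, by simp [line]; ring⟩
    · left; simp [line, B2]
    · right; exact ⟨A1 K * A3 K * B1 K, by simp [line]; ring⟩
    · left; simp [line, B4]
    · right; exact ⟨A3 K * B1 K * B3 K, by simp [line]; ring⟩
    · left; simp [line, A2]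
    · right; exact ⟨A1 K * B1 K * B3 K, by simp [line]; ring⟩))
  obtain ⟨E14, h14, h14'⟩ := hA.lift (m := k + 1) (hR ![1, 1, 0] (A1 K * A2 K * B2 K * B3 K) (by
    intro j
    fin_cases j
    · left; simp [line, B1]
    · right; exact ⟨A1 K * A2 K * B3 K, by simp [line]; ring⟩
    · right; exact ⟨A1 K * A2 K * B2 K, by simp [line]; ring⟩
    · left; simp [line, B4]
    · right; exact ⟨A2 K * B2 K * B3 K, by simp [line]; ring⟩
    · right; exact ⟨A1 K * B2 K * B3 K, by simp [line]; ring⟩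
    · left; simp [line, A3]))
  obtain ⟨E23, h23, h23'⟩ := hA.lift (m := k + 1) (hR ![1, 0, 1] (A1 K * A2 K * B1 K * B4 K) (by
    intro j
    fin_cases j
    · right; exact ⟨A1 K * A2 K * B4 K, by simp [line]; ring⟩
    · left; simp [line, B2]
    · left; simp [line, B3]
    · right; exact ⟨A1 K * A2 K * B1 K, by simp [line]; ring⟩
    · right; exact ⟨A2 K * B1 K * B4 K, by simp [line]; ring⟩
    · right; exact ⟨A1 K * B1 K * B4 K, by simp [line]; ring⟩
    · left; simp [line, A3]))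
  -- names
  obtain ⟨b1, hb1⟩ : ∃ b, b = inc i1 i2 iz (B1 K) := ⟨_, rfl⟩
  obtain ⟨b2, hb2⟩ : ∃ b, b = inc i1 i2 iz (B2 K) := ⟨_, rfl⟩
  obtain ⟨b3, hb3⟩ : ∃ b, b = inc i1 i2 iz (B3 K) := ⟨_, rfl⟩
  obtain ⟨b4, hb4⟩ : ∃ b, b = inc i1 i2 iz (B4 K) := ⟨_, rfl⟩
  obtain ⟨a1, ha1⟩ : ∃ b, b = inc i1 i2 iz (A1 K) := ⟨_, rfl⟩
  obtain ⟨a2, ha2⟩ : ∃ b, b = inc i1 i2 iz (A2 K) := ⟨_, rfl⟩
  obtain ⟨a3, ha3⟩ : ∃ b, b = inc i1 i2 iz (A3 K) := ⟨_, rfl⟩
  have xb1 : b1 = X iz := by rw [hb1]; simp [inc, B1]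
  have xb2 : b2 = X i1 - X iz := by rw [hb2]; simp [inc, B2]
  have xb3 : b3 = - X i2 := by rw [hb3]; simp [inc, B3]
  have xb4 : b4 = X i2 - X i1 := by rw [hb4]; simp [inc, B4]
  have xa1 : a1 = X i1 := by rw [ha1]; simp [inc, A1]
  have xa2 : a2 = X iz - X i2 := by rw [ha2]; simp [inc, A2]
  have xa3 : a3 = X iz + X i2 - X i1 := by rw [ha3]; simp [inc, A3]
  have hrel : a1 • (E12 + E34) + a2 • (E13 + E24) + a3 • (E14 + E23) + (a1 * a2 * a3) • E0 = 0 := by
    refine arr_ext (m := k + 2) (Q := ∏ i, α i) ?_ (zero_mem _) ?_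
    · exact add_mem (add_mem (add_mem (Submodule.smul_mem _ _ (add_mem h12 h34))
        (Submodule.smul_mem _ _ (add_mem h13 h24))) (Submodule.smul_mem _ _ (add_mem h14 h23)))
        (Submodule.smul_mem _ _ h0)
    · intro f hf
      simp only [LinearMap.add_apply, LinearMap.smul_apply, smul_eq_mul, LinearMap.zero_apply]
      rw [h12' f hf, h34' f hf, h13' f hf, h24' f hf, h14' f hf, h23' f hf, h0' f hf]
      rw [incOp_apply]
      simp only [evOp_apply]
      have hI := congrArg (inc i1 i2 iz) (interp _ (bar_mem (i1 := i1) (i2 := i2) (iz := iz)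
        (it := it) k hf))
      have hC : ∀ c : K, inc i1 i2 iz (C c : MvPolynomial (Fin 3) K) = C c :=
        fun c => (inc i1 i2 iz : MvPolynomial (Fin 3) K →ₐ[K] MvPolynomial (Fin n) K).commutes c
      rw [map_neg] at hI
      simp only [map_add, map_mul, hC] at hI
      simp only [map_mul]
      rw [← hb1, ← hb2, ← hb3, ← hb4] at hI
      rw [← hb1, ← hb2, ← hb3, ← hb4, ← ha1, ← ha2, ← ha3]
      linear_combination (a1 * a2 * a3 * u) * hI
  have hfree' : Module.Free (MvPolynomial (Fin n) K) (arrModule K (k + 2) (∏ i, α i)) := hfree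
  let D := arrModule K (k + 2) (∏ i, α i)
  let bs := Module.Free.chooseBasis (MvPolynomial (Fin n) K) D
  let F1 : D := ⟨E12 + E34, add_mem h12 h34⟩
  let F2 : D := ⟨E13 + E24, add_mem h13 h24⟩
  let F3 : D := ⟨E14 + E23, add_mem h14 h23⟩
  let F0 : D := ⟨E0, h0⟩
  have hrel' : a1 • F1 + a2 • F2 + a3 • F3 + (a1 * a2 * a3) • F0 = 0 := Subtype.ext hrel
  have hcoord : ∀ i, ∃ s t, bs.repr F1 i = a2 * s + a3 * t := by
    intro i
    have h1 := congrArg (fun x => bs.repr x i) hrel'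
    simp only [map_add, map_smul, Finsupp.add_apply, Finsupp.smul_apply, smul_eq_mul, map_zero,
      Finsupp.zero_apply] at h1
    have h2 : a1 * bs.repr F1 i ∈ Ideal.span {a2, a3} := by
      rw [Ideal.mem_span_pair]
      refine ⟨- bs.repr F2 i - a1 * a3 * bs.repr F0 i, - bs.repr F3 i, ?_⟩
      linear_combination -h1
    let ψ : MvPolynomial (Fin n) K →ₐ[K] MvPolynomial (Fin n) K :=
      aeval fun i => if i = i1 then 2 * X iz else if i = i2 then X iz else X i
    have p1 : ψ (X i1) = 2 * X iz := by simp [ψ]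
    have p2 : ψ (X i2) = X iz := by simp [ψ, hd.h12.symm]
    have p3 : ψ (X iz) = X iz := by simp [ψ, hd.h1z.symm, hd.h2z.symm]
    have h3 := mem_of_mul_mem ψ a2 a3 ?_ ?_ ?_ ?_ h2
    · obtain ⟨s, t, hst⟩ := Ideal.mem_span_pair.mp h3
      exact ⟨s, t, by rw [← hst]; ring⟩
    · intro i
      by_cases q1 : i = i1
      · subst q1
        have : X i - ψ (X i) = (-1) * a2 + (-1) * a3 := by rw [p1, xa2, xa3]; ring
        rw [this]
        exact add_mem (Ideal.mul_mem_left _ _ (Ideal.subset_span (by simp)))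
          (Ideal.mul_mem_left _ _ (Ideal.subset_span (by simp)))
      · by_cases q2 : i = i2
        · subst q2
          have : X i - ψ (X i) = (-1) * a2 := by rw [p2, xa2]; ring
          rw [this]
          exact Ideal.mul_mem_left _ _ (Ideal.subset_span (by simp))
        · have : ψ (X i) = X i := by simp [ψ, q1, q2]
          rw [this, sub_self]; exact zero_mem _
    · rw [xa2, map_sub, p2, p3, sub_self]
    · rw [xa3, map_sub, map_add, p1, p2, p3]; ring
    · rw [xa1, p1]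
      refine ne_zero_of_eval (fun _ => 1) ?_
      simp
  choose s t hst using hcoord
  let G1 : D := ∑ i ∈ (bs.repr F1).support, s i • bs i
  let G2 : D := ∑ i ∈ (bs.repr F1).support, t i • bs i
  have hF1 : F1 = a2 • G1 + a3 • G2 := by
    have h1 := bs.linearCombination_repr F1
    rw [Finsupp.linearCombination_apply, Finsupp.sum] at h1
    rw [← h1, Finset.smul_sum, Finset.smul_sum, ← Finset.sum_add_distrib]
    apply Finset.sum_congr rfl
    intro i _
    rw [hst i, add_smul, mul_smul, mul_smul]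
  have hF1' : ∀ f, (E12 + E34) f = a2 * G1.1 f + a3 * G2.1 f := by
    intro f
    have := congrArg (fun x : D => x.1 f) hF1
    exact this
  have hgood : ∀ G : D, Good (nline K i1 i2 iz) (k + 2) G.1 := by
    intro G j f hf hdv
    obtain ⟨i, h1, h2⟩ := hline j
    exact h2.trans ((hA.mem_iff.mp G.2).2 i f hf (h1.trans hdv))
  obtain ⟨s1, s2, hs⟩ := L_constraint hd (hgood G1) b1 b2 b3 b4 a1 a2 a3 (X it ^ k)
    xb1 xb2 xb3 xb4 xa1 xa2 xa3 rfl
  obtain ⟨s3, s4, hs'⟩ := L_constraint hd (hgood G2) b1 b2 b3 b4 a1 a2 a3 (X it ^ k)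
    xb1 xb2 xb3 xb4 xa1 xa2 xa3 rfl
  have hmem : ∀ {g : MvPolynomial (Fin 3) K}, g ∈ W K 3 2 →
      inc i1 i2 iz g * (X it : MvPolynomial (Fin n) K) ^ k ∈ W K n (k + 2) := by
    intro g hg
    rw [mem_homogeneousSubmodule, add_comm]
    exact (inc_mem hg).mul (isHomogeneous_X_pow _ _)
  have hval : ∀ g : MvPolynomial (Fin 3) K, g ∈ W K 3 2 →
      (E12 + E34) (inc i1 i2 iz g * (X it : MvPolynomial (Fin n) K) ^ k) =
      u * (a2 * a3 * b3 * b4) * C (eval ![0, 1, 0] g) + u * (a2 * a3 * b1 * b2) *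
        C (eval ![0, 0, 1] g) := by
    intro g hg
    rw [LinearMap.add_apply, h12' _ (hmem hg), h34' _ (hmem hg), evOp_apply, evOp_apply,
      bar_inc_pow hd]
    simp only [map_mul]
    rw [← hb1, ← hb2, ← hb3, ← hb4, ← ha2, ← ha3]
  have w34 : B3 K * B4 K ∈ W K 3 2 := linear_mul_mem (line_mem 2) (line_mem 3)
  have w24 : B2 K * B4 K ∈ W K 3 2 := linear_mul_mem (line_mem 1) (line_mem 3)
  have w23 : B2 K * B3 K ∈ W K 3 2 := linear_mul_mem (line_mem 1) (line_mem 2)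
  have v34 : (E12 + E34) (b3 * b4 * (X it : MvPolynomial (Fin n) K) ^ k) =
      - (u * (a2 * a3 * b3 * b4)) := by
    rw [hb3, hb4, ← map_mul, hval _ w34, ← hb3, ← hb4]
    simp [B3, B4]
  have v24 : (E12 + E34) (b2 * b4 * (X it : MvPolynomial (Fin n) K) ^ k) = 0 := by
    rw [hb2, hb4, ← map_mul, hval _ w24]
    simp [B2, B4]
  have v23 : (E12 + E34) (b2 * b3 * (X it : MvPolynomial (Fin n) K) ^ k) = 0 := by
    rw [hb2, hb3, ← map_mul, hval _ w23]
    simp [B2, B3]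
  rw [hF1'] at v34 v24 v23
  have key : u * a3 * (b2 * b3 * b4 * a1 * a2) = - ((a2 * (a3 * s1 + b1 * s2) +
      a3 * (a3 * s3 + b1 * s4)) * (b2 * b3 * b4 * a1 * a2)) := by
    linear_combination (-a2) * hs - a3 * hs' + (a1 * b2) * v34 - (a1 * b4) * v23
      + (a2 * b3) * v24 - (a2 * b4) * v23
  have hB := nline_arr (K := K) hd.h12 hd.h1z hd.h2z
  have n2 : b2 ≠ 0 := by rw [hb2]; exact hB.ne 1
  have n3 : b3 ≠ 0 := by rw [hb3]; exact hB.ne 2
  have n4 : b4 ≠ 0 := by rw [hb4]; exact hB.ne 3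
  have m1 : a1 ≠ 0 := by rw [ha1]; exact hB.ne 4
  have m2 : a2 ≠ 0 := by rw [ha2]; exact hB.ne 5
  have m3 : a3 ≠ 0 := by rw [ha3]; exact hB.ne 6
  rw [← neg_mul] at key
  have key2 := mul_right_cancel₀ (by simp [n2, n3, n4, m1, m2] : b2 * b3 * b4 * a1 * a2 ≠ 0) key
  have hdv : a3 ∣ a2 * (b1 * s2) :=
    ⟨- u - a2 * s1 - (a3 * s3 + b1 * s4), by linear_combination key2⟩
  have hp3 : Prime a3 := by rw [ha3]; exact hB.prime 6
  have hdv2 : a3 ∣ s2 := by
    rcases hp3.dvd_or_dvd hdv with h | h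
    · rw [ha3, ha2] at h; exact absurd h (hB.nd 6 5 (by decide))
    · rcases hp3.dvd_or_dvd h with h | h
      · rw [ha3, hb1] at h; exact absurd h (hB.nd 6 0 (by decide))
      · exact h
  obtain ⟨s5, hs5⟩ := hdv2
  have key3 : u = - (a2 * s1 + a2 * b1 * s5 + (a3 * s3 + b1 * s4)) := by
    apply mul_right_cancel₀ m3
    rw [hs5] at key2
    linear_combination key2
  apply hu
  rw [key3, xa2, xa3, xb1]
  simp [hp1, hp2, hpz]

end

end ShiFree
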