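import Pool.Agent.L5helper75.SH.Fam

/-! `Shi_ℓ`, `ℓ ≥ 3`, is not `m`-free for any `m ≥ 2`. -/

namespace ShiFree

open MvPolynomial

variable {K : Type*} [Field K]

theorem form_arr [CharZero K] (ℓ : ℕ) : Arr (form K ℓ) where
  lin := form_mem
  ne := fun a h => by
    have hz := congrArg (eval (Pi.single (Fin.last ℓ) 1)) h
    have hl : ∀ k : Fin ℓ, Fin.last ℓ ≠ k.castSucc := fun k => (Fin.castSucc_lt_last k).ne'
    have hl' : ∀ k : Fin ℓ, k.castSucc ≠ Fin.last ℓ := fun k => (Fin.castSucc_lt_last k).ne
    match a with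
    | .inl _ => simp [form] at hz
    | .inr (.inl i) =>
      have := congrArg (eval (Pi.single i.castSucc 1)) h
      simp [form, Pi.single_apply] at this
    | .inr (.inr (.inl i)) => simp [form, Pi.single_apply, hl'] at hz
    | .inr (.inr (.inr (.inl ⟨(i, j), h'⟩))) =>
      have := congrArg (eval (Pi.single i.castSucc 1)) h
      have h2 := h'.ne
      simp [form, Pi.single_apply] at this
      grind
    | .inr (.inr (.inr (.inr ⟨(i, j), h'⟩))) => simp [form, Pi.single_apply, hl'] at hz
  nd := form_not_dvd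

theorem not_isMFree_shi [CharZero K] (l k : ℕ) : ¬ IsMFree K (k + 2) (shi K (l + 3)) := by
  classical
  rw [shi_eq]
  let z0 : Fin (l + 3) := 0
  let z1 : Fin (l + 3) := 1
  let z2 : Fin (l + 3) := ⟨2, by omega⟩
  have h01 : z0 < z1 := by simp [z0, z1, Fin.lt_def]
  let e : Fin 7 → Idx (l + 3) := ![.inl (), .inr (.inr (.inl z0)), .inr (.inl z1),
    .inr (.inr (.inr (.inl ⟨(z0, z1), h01⟩))), .inr (.inl z0), .inr (.inr (.inl z1)),
    .inr (.inr (.inr (.inr ⟨(z0, z1), h01⟩)))]
  have hl : ∀ k : Fin (l + 3), Fin.last (l + 3) ≠ k.castSucc := fun k => (Fin.castSucc_lt_last k).ne'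
  have hl' : ∀ k : Fin (l + 3), k.castSucc ≠ Fin.last (l + 3) := fun k => (Fin.castSucc_lt_last k).ne
  have hd : Dist z0.castSucc z1.castSucc (Fin.last (l + 3)) z2.castSucc :=
    ⟨by simp [z0, z1, Fin.ext_iff], hl' _, by simp [z0, z2, Fin.ext_iff], hl' _,
      by simp [z1, z2, Fin.ext_iff], hl _⟩
  let u : MvPolynomial (Fin (l + 3 + 1)) K :=
    ∏ i ∈ Finset.univ.filter (fun i => ∀ j, i ≠ e j), form K (l + 3) i
  let p : Fin (l + 3 + 1) → K := fun k => if k.val ≤ 1 ∨ k = Fin.last _ then 0 else (k.val : K)
  have hline : ∀ j, ∃ i, form K (l + 3) i ∣ nline K z0.castSucc z1.castSucc (Fin.last (l + 3)) j ∧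
      nline K z0.castSucc z1.castSucc (Fin.last (l + 3)) j ∣ form K (l + 3) i := by
    intro j
    refine ⟨e j, ?_⟩
    have : nline K z0.castSucc z1.castSucc (Fin.last (l + 3)) j = form K (l + 3) (e j) ∨
        nline K z0.castSucc z1.castSucc (Fin.last (l + 3)) j = - form K (l + 3) (e j) := by
      fin_cases j
      · left; simp [nline, inc, line, B1, e, form]
      · left; simp [nline, inc, line, B2, e, form]
      · right; simp [nline, inc, line, B3, e, form]
      · right; simp [nline, inc, line, B4, e, form]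
      · left; simp [nline, inc, line, A1, e, form]
      · right; simp [nline, inc, line, A2, e, form]
      · right; simp [nline, inc, line, A3, e, form]; ring
    rcases this with h | h <;> rw [h]
    · exact ⟨dvd_rfl, dvd_rfl⟩
    · exact ⟨(dvd_neg).mpr dvd_rfl, (neg_dvd).mpr dvd_rfl⟩
  refine neg_main (form_arr (l + 3)) hd (u := u) p ?_ ?_ ?_ ?_ ?_ hline k
  · rw [map_prod]
    refine Finset.prod_ne_zero_iff.mpr fun i hi => ?_
    rw [Finset.mem_filter] at hi
    have hi' := hi.2
    have hp : ∀ j : Fin (l + 3), j ≠ z0 → j ≠ z1 → p j.castSucc = (j.val : K) := by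
      intro j h0 h1
      have h0' : j.val ≠ 0 := fun h => h0 (Fin.ext h)
      have h1' : j.val ≠ 1 := fun h => h1 (Fin.ext (by simpa [z1] using h))
      simp only [p, Fin.val_castSucc]
      rw [if_neg]
      rintro (h | h)
      · omega
      · exact hl' _ h
    have hpz : p (Fin.last _) = 0 := by simp [p]
    have hp0 : p z0.castSucc = 0 := by simp [p, z0]
    have hp1 : p z1.castSucc = 0 := by simp [p, z1]
    have hX : ∀ j : Fin (l + 3), j ≠ z0 → j ≠ z1 → p j.castSucc ≠ 0 := by
      intro j h0 h1
      rw [hp j h0 h1]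
      have h0' : j.val ≠ 0 := fun h => h0 (Fin.ext h)
      exact_mod_cast h0'
    have hD : ∀ i j : Fin (l + 3), i < j → (i, j) ≠ (z0, z1) → p i.castSucc - p j.castSucc ≠ 0 := by
      intro i j hij hne
      have hj0 : j ≠ z0 := by
        rintro rfl
        have := Fin.lt_def.mp hij
        simp [z0] at this
      have hj1 : j ≠ z1 := by
        rintro rfl
        have h1 := Fin.lt_def.mp hij
        have h2 : i = z0 := by
          apply Fin.ext
          simp [z1] at h1
          simp [z0, h1]
        exact hne (by rw [h2])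
      by_cases hi0 : i = z0
      · rw [hi0, hp0, zero_sub, neg_ne_zero]; exact hX j hj0 hj1
      · by_cases hi1 : i = z1
        · rw [hi1, hp1, zero_sub, neg_ne_zero]; exact hX j hj0 hj1
        · rw [hp i hi0 hi1, hp j hj0 hj1, sub_ne_zero]
          have := (Fin.lt_def.mp hij).ne
          exact_mod_cast this
    match i, hi' with
    | .inl _, hi' => exact absurd rfl (hi' 0)
    | .inr (.inl i), hi' =>
      have h1 : i ≠ z1 := by rintro rfl; exact hi' 2 rfl
      have h0 : i ≠ z0 := by rintro rfl; exact hi' 4 rfl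
      simp only [form, eval_X]
      exact hX i h0 h1
    | .inr (.inr (.inl i)), hi' =>
      have h0 : i ≠ z0 := by rintro rfl; exact hi' 1 rfl
      have h1 : i ≠ z1 := by rintro rfl; exact hi' 5 rfl
      simp only [form, eval_X, map_sub, hpz, sub_zero]
      exact hX i h0 h1
    | .inr (.inr (.inr (.inl ⟨(i, j), h⟩))), hi' =>
      have h1 : (i, j) ≠ (z0, z1) := by
        intro h'
        obtain ⟨rfl, rfl⟩ := Prod.mk.inj h'
        exact hi' 3 rfl
      simp only [form, eval_X, map_sub]
      exact hD i j h h1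
    | .inr (.inr (.inr (.inr ⟨(i, j), h⟩))), hi' =>
      have h1 : (i, j) ≠ (z0, z1) := by
        intro h'
        obtain ⟨rfl, rfl⟩ := Prod.mk.inj h'
        exact hi' 6 rfl
      simp only [form, eval_X, map_sub, hpz, sub_zero]
      exact hD i j h h1
  · simp [p, z0]
  · simp [p, z1]
  · simp [p]
  · intro i
    by_cases h : ∀ j, i ≠ e j
    · left
      exact Finset.dvd_prod_of_mem _ (Finset.mem_filter.mpr ⟨Finset.mem_univ _, h⟩)
    · right
      push Not at h
      obtain ⟨j, rfl⟩ := h
      refine ⟨j, ?_⟩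
      have : nline K z0.castSucc z1.castSucc (Fin.last (l + 3)) j = form K (l + 3) (e j) ∨
          nline K z0.castSucc z1.castSucc (Fin.last (l + 3)) j = - form K (l + 3) (e j) := by
        fin_cases j
        · left; simp [nline, inc, line, B1, e, form]
        · left; simp [nline, inc, line, B2, e, form]
        · right; simp [nline, inc, line, B3, e, form]
        · right; simp [nline, inc, line, B4, e, form]
        · left; simp [nline, inc, line, A1, e, form]
        · right; simp [nline, inc, line, A2, e, form]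
        · right; simp [nline, inc, line, A3, e, form]; ring
      rcases this with h | h <;> rw [h]
      · exact ⟨dvd_rfl, dvd_rfl⟩
      · exact ⟨(dvd_neg).mpr dvd_rfl, (neg_dvd).mpr dvd_rfl⟩

end ShiFree
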