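import Pool.Agent.L5helper75.SH.Step

/-! Tools for the triangular bases of `Shi_2` with `m = 3, 4, 5`. -/

namespace ShiFree

open MvPolynomial

variable {K : Type*} [Field K]

/-- the differential at the point `v`, as a linear form -/
noncomputable def Dv {n : ℕ} (v : Fin n → K) : Module.End K (MvPolynomial (Fin n) K) :=
  ∑ k, (LinearMap.mulLeft K (X k)).comp ((Algebra.linearMap K (MvPolynomial (Fin n) K)).comp
    ((aeval v : MvPolynomial (Fin n) K →ₐ[K] K).toLinearMap.comp
      (pderiv k : Derivation K (MvPolynomial (Fin n) K) (MvPolynomial (Fin n) K)).toLinearMap))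

theorem Dv_apply {n : ℕ} (v : Fin n → K) (f : MvPolynomial (Fin n) K) :
    Dv v f = ∑ k, X k * C (eval v (pderiv k f)) := by
  rw [Dv, LinearMap.sum_apply]; rfl

theorem Dv_mul {n : ℕ} (v : Fin n → K) (f g : MvPolynomial (Fin n) K) :
    Dv v (f * g) = C (eval v f) * Dv v g + C (eval v g) * Dv v f := by
  rw [Dv_apply, Dv_apply, Dv_apply, Finset.mul_sum, Finset.mul_sum, ← Finset.sum_add_distrib]
  refine Finset.sum_congr rfl fun k _ => ?_
  rw [(pderiv k).leibniz, map_add, smul_eq_mul, smul_eq_mul, map_mul, map_mul, C_add, C_mul, C_mul]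
  ring

theorem Dv_X {n : ℕ} (v : Fin n → K) (i : Fin n) : Dv v (X i) = X i := by
  rw [Dv_apply, Finset.sum_eq_single i]
  · rw [pderiv_X_self]; simp
  · intro j _ hj; rw [pderiv_X_of_ne hj.symm]; simp
  · intro h; exact absurd (Finset.mem_univ i) h

theorem Dv_B1 (v : Fin 3 → K) : Dv v (B1 K) = B1 K := Dv_X v 2
theorem Dv_B2 (v : Fin 3 → K) : Dv v (B2 K) = B2 K := by rw [B2, map_sub, Dv_X, Dv_X]
theorem Dv_B3 (v : Fin 3 → K) : Dv v (B3 K) = B3 K := by rw [B3, map_neg, Dv_X]
theorem Dv_B4 (v : Fin 3 → K) : Dv v (B4 K) = B4 K := by rw [B4, map_sub, Dv_X, Dv_X]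
theorem Dv_A1 (v : Fin 3 → K) : Dv v (A1 K) = A1 K := Dv_X v 0
theorem Dv_A2 (v : Fin 3 → K) : Dv v (A2 K) = A2 K := by rw [A2, map_sub, Dv_X, Dv_X]
theorem Dv_A3 (v : Fin 3 → K) : Dv v (A3 K) = A3 K := by
  rw [A3, map_sub, map_add, Dv_X, Dv_X, Dv_X]

theorem Dv_line (v : Fin 3 → K) (j : Fin 7) : Dv v (line K j) = line K j := by
  fin_cases j
  · exact Dv_B1 v
  · exact Dv_B2 v
  · exact Dv_B3 v
  · exact Dv_B4 v
  · exact Dv_A1 v
  · exact Dv_A2 v
  · exact Dv_A3 v

/-- `f ↦ R D_v f` -/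
noncomputable def dF (R : MvPolynomial (Fin 3) K) (v : Fin 3 → K) :
    Module.End K (MvPolynomial (Fin 3) K) :=
  (LinearMap.mulLeft K R).comp (Dv v)

theorem dF_apply (R : MvPolynomial (Fin 3) K) (v : Fin 3 → K) (f : MvPolynomial (Fin 3) K) :
    dF R v f = R * Dv v f := rfl

/-- `f ↦ R ∂_d f(v)` -/
noncomputable def dirF (R : MvPolynomial (Fin 3) K) (v d : Fin 3 → K) :
    Module.End K (MvPolynomial (Fin 3) K) :=
  (evF R d).comp (Dv v)

theorem dirF_apply (R : MvPolynomial (Fin 3) K) (v d : Fin 3 → K) (f : MvPolynomial (Fin 3) K) :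
    dirF R v d f = R * C (eval d (Dv v f)) := rfl

theorem good_dF (m : ℕ) (R : MvPolynomial (Fin 3) K) (v : Fin 3 → K)
    (h : ∀ j, eval v (line K j) = 0 ∨ line K j ∣ R) : Good (line K) m (dF R v) := by
  intro i f _ hd
  rw [dF_apply]
  rcases h i with h | h
  · obtain ⟨g, rfl⟩ := hd
    rw [Dv_mul, h, map_zero, zero_mul, zero_add, Dv_line]
    exact Dvd.dvd.mul_left (Dvd.dvd.mul_left dvd_rfl _) _
  · exact Dvd.dvd.mul_right h _

theorem good_dirF (m : ℕ) (R : MvPolynomial (Fin 3) K) (v d : Fin 3 → K)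
    (h : ∀ j, (eval v (line K j) = 0 ∧ eval d (line K j) = 0) ∨ line K j ∣ R) :
    Good (line K) m (dirF R v d) := by
  intro i f _ hd
  rw [dirF_apply]
  rcases h i with ⟨h, h'⟩ | h
  · obtain ⟨g, rfl⟩ := hd
    rw [Dv_mul, h, map_zero, zero_mul, zero_add, Dv_line, map_mul, h', mul_zero, map_zero, mul_zero]
    exact dvd_zero _
  · exact Dvd.dvd.mul_right h _

/-- products of lines -/
noncomputable def lp (K : Type*) [Field K] (L : List (Fin 7)) : MvPolynomial (Fin 3) K :=
  (L.map (line K)).prod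

theorem line_dvd_lp {L : List (Fin 7)} {j : Fin 7} (h : j ∈ L) : line K j ∣ lp K L :=
  List.dvd_prod (List.mem_map_of_mem h)

theorem lp_mem : ∀ L : List (Fin 7), lp K L ∈ W K 3 L.length := by
  intro L
  induction L with
  | nil => exact isHomogeneous_one _ _
  | cons i L ih =>
    have e : lp K (i :: L) = line K i * lp K L := by simp [lp]
    rw [e]; exact linear_mul_mem (line_mem i) ih

theorem list_dvd [CharZero K] {g : MvPolynomial (Fin 3) K} (L : List (Fin 7)) (hL : L.Nodup)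
    (h : ∀ i ∈ L, line K i ∣ g) : lp K L ∣ g := by
  rw [lp, ← List.prod_toFinset _ hL]
  exact line_arr.prod_dvd _ (fun i hi => h i (List.mem_toFinset.mp hi))

theorem TB.of_lists [CharZero K] {m : ℕ} {κ : Type*} [Fintype κ] {r : κ → ℕ}
    {f : κ → MvPolynomial (Fin 3) K} {F : κ → Module.End K (MvPolynomial (Fin 3) K)}
    (hom : ∀ j, f j ∈ W K 3 m) (good : ∀ j, Good (line K) m (F j))
    (low : ∀ j k, k ≠ j → r k ≤ r j → F j (f k) = 0)
    (L : κ → List (Fin 7)) (hnd : ∀ j, (L j).Nodup) (c : κ → K) (hc : ∀ j, c j ≠ 0)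
    (hval : ∀ j, F j (f j) = C (c j) * lp K (L j))
    (cert : ∀ j, ∀ i ∈ L j, ∃ cs : List (ℤ × κ), (∀ p ∈ cs, r p.2 < r j) ∧
      line K i ∣ f j + (cs.map fun p => p.1 • f p.2).sum)
    (hcard : (3 + m - 1).choose m ≤ Fintype.card κ) : TB (line K) m r f F where
  hom := hom
  good := good
  low := low
  ne := fun j => by
    rw [hval j]
    refine mul_ne_zero (by rw [Ne, MvPolynomial.C_eq_zero]; exact hc j) ?_
    rw [lp]
    apply List.prod_ne_zero
    intro h
    obtain ⟨i, _, hi⟩ := List.mem_map.mp h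
    exact line_arr.ne i hi
  div := fun θ hθ j hk => by
    rw [hval j]
    refine C_mul_dvd (hc j) (list_dvd _ (hnd j) fun i hi => ?_)
    obtain ⟨cs, hcs, hd⟩ := cert j i hi
    have hmem : ∀ cs : List (ℤ × κ), (cs.map fun p => p.1 • f p.2).sum ∈ W K 3 m := by
      intro cs
      induction cs with
      | nil => exact zero_mem _
      | cons p cs ih =>
        rw [List.map_cons, List.sum_cons]
        exact add_mem (zsmul_mem (hom _) _) ih
    have hz : ∀ cs : List (ℤ × κ), (∀ p ∈ cs, r p.2 < r j) →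
        θ (cs.map fun p => p.1 • f p.2).sum = 0 := by
      intro cs
      induction cs with
      | nil => intro _; exact map_zero _
      | cons p cs ih =>
        intro h
        rw [List.map_cons, List.sum_cons, map_add, map_zsmul,
          hk _ (h p List.mem_cons_self), smul_zero, zero_add]
        exact ih fun q hq => h q (List.mem_cons_of_mem _ hq)
    have h2 := hθ i _ (add_mem (hom j) (hmem cs)) hd
    rwa [map_add, hz cs hcs, add_zero] at h2
  span := by
    refine span_of_card hom (TB_linearIndependent (r := r) (F := F) low ?_) hcard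
    intro j
    rw [hval j]
    refine mul_ne_zero (by rw [Ne, MvPolynomial.C_eq_zero]; exact hc j) ?_
    rw [lp]
    apply List.prod_ne_zero
    intro h
    obtain ⟨i, _, hi⟩ := List.mem_map.mp h
    exact line_arr.ne i hi

end ShiFree
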