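import Pool.Agent.L5helper75.SH.Lines

/-! The step `m → m + 1` for `m ≥ 5`. -/

namespace ShiFree

open MvPolynomial

variable {K : Type*} [Field K]

theorem C_mul_dvd {n : ℕ} {c : K} (hc : c ≠ 0) {P g : MvPolynomial (Fin n) K} (h : P ∣ g) :
    C c * P ∣ g := by
  obtain ⟨q, rfl⟩ := h
  refine ⟨C c⁻¹ * q, ?_⟩
  have : (C c * C c⁻¹ : MvPolynomial (Fin n) K) = 1 := by
    rw [← C_mul, mul_inv_cancel₀ hc, C_1]
  calc P * q = 1 * (P * q) := by ring
    _ = (C c * C c⁻¹) * (P * q) := by rw [this]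
    _ = _ := by ring

theorem mul_C_dvd {n : ℕ} {c : K} (hc : c ≠ 0) {P g : MvPolynomial (Fin n) K} (h : P ∣ g) :
    P * C c ∣ g := by
  rw [mul_comm]; exact C_mul_dvd hc h

/-- `f ↦ R f(v)` -/
noncomputable def evF {n : ℕ} (R : MvPolynomial (Fin n) K) (v : Fin n → K) :
    Module.End K (MvPolynomial (Fin n) K) :=
  (LinearMap.mulLeft K R).comp ((Algebra.linearMap K (MvPolynomial (Fin n) K)).comp
    (aeval v : MvPolynomial (Fin n) K →ₐ[K] K).toLinearMap)

theorem evF_apply {n : ℕ} (R : MvPolynomial (Fin n) K) (v : Fin n → K)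
    (f : MvPolynomial (Fin n) K) : evF R v f = R * C (eval v f) := rfl

theorem good_evF {ι : Type*} {n : ℕ} {α : ι → MvPolynomial (Fin n) K} (m : ℕ)
    (R : MvPolynomial (Fin n) K) (v : Fin n → K) (h : ∀ j, eval v (α j) = 0 ∨ α j ∣ R) :
    Good α m (evF R v) := by
  intro i f _ hd
  rw [evF_apply]
  rcases h i with h | h
  · obtain ⟨g, rfl⟩ := hd
    rw [map_mul, h, zero_mul, map_zero, mul_zero]; exact dvd_zero _
  · exact Dvd.dvd.mul_right h _

/-- the transversal line -/
noncomputable def ell (K : Type*) [Field K] : MvPolynomial (Fin 3) K := X 0 + X 1 + 2 * X 2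

noncomputable def w0 (K : Type*) [Field K] : MvPolynomial (Fin 3) K := X 1 - 2 * X 2

theorem two_mul_mem {n : ℕ} (i : Fin n) : (2 * X i : MvPolynomial (Fin n) K) ∈ W K n 1 := by
  rw [two_mul]; exact add_mem (X_mem_W i) (X_mem_W i)

theorem ell_mem : ell K ∈ W K 3 1 := add_mem (add_mem (X_mem_W 0) (X_mem_W 1)) (two_mul_mem 2)

theorem w0_mem : w0 K ∈ W K 3 1 := sub_mem (X_mem_W 1) (two_mul_mem 2)

/-- the points of the transversal line on the seven lines -/
def tp (K : Type*) [Field K] : Fin 7 → Fin 3 → K :=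
  ![![-1, 1, 0], ![-1, 3, -1], ![2, 0, -1], ![1, 1, -1], ![0, 2, -1], ![3, -1, -1], ![1, 3, -2]]

theorem eval_tp [CharZero K] (i j : Fin 7) (h : i ≠ j) : eval (tp K i) (line K j) ≠ 0 := by
  fin_cases i <;> fin_cases j <;>
    first
    | (exact absurd rfl h)
    | (simp [tp, line, B1, B2, B3, B4, A1, A2, A3]; try norm_num)

theorem eval_tp_self (i : Fin 7) : eval (tp K i) (line K i) = 0 := by
  fin_cases i <;> (simp [tp, line, B1, B2, B3, B4, A1, A2, A3]; try norm_num)

theorem eval_tp_ell (i : Fin 7) : eval (tp K i) (ell K) = 0 := by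
  fin_cases i <;> (simp [tp, ell]; try norm_num)

theorem eval_tp_w0 [CharZero K] (i : Fin 7) : eval (tp K i) (w0 K) ≠ 0 := by
  fin_cases i <;> (simp [tp, w0]; try norm_num)

/-- restriction to the transversal line -/
noncomputable def tau (K : Type*) [Field K] : MvPolynomial (Fin 3) K →ₐ[K] Polynomial K :=
  aeval ![-1 - 4 * Polynomial.X, 1 + 2 * Polynomial.X, Polynomial.X]

theorem tau_ell : tau K (ell K) = 0 := by simp [tau, ell]; ring

theorem tau_w0 : tau K (w0 K) = 1 := by simp [tau, w0]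

/-- leading coefficients of the restrictions of the seven lines -/
def ld (K : Type*) [Field K] : Fin 7 → K := ![1, -5, -2, 6, -4, -1, 7]
def ct (K : Type*) [Field K] : Fin 7 → K := ![0, -1, -1, 2, -1, -1, 2]

theorem tau_line (i : Fin 7) : tau K (line K i) =
    Polynomial.C (ld K i) * Polynomial.X + Polynomial.C (ct K i) := by
  fin_cases i <;> simp [tau, line, B1, B2, B3, B4, A1, A2, A3, ld, ct] <;>
    (try simp only [map_ofNat]) <;> (try ring)

theorem ld_ne [CharZero K] (i : Fin 7) : ld K i ≠ 0 := by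
  fin_cases i <;> simp [ld]

theorem tau_line_natDegree [CharZero K] (i : Fin 7) : (tau K (line K i)).natDegree = 1 := by
  rw [tau_line]; exact Polynomial.natDegree_linear (ld_ne i)

/-- coefficient of the restriction -/
noncomputable def coF (R : MvPolynomial (Fin 3) K) (j : ℕ) :
    Module.End K (MvPolynomial (Fin 3) K) :=
  (LinearMap.mulLeft K R).comp ((Algebra.linearMap K (MvPolynomial (Fin 3) K)).comp
    ((Polynomial.lcoeff K j).comp (tau K).toLinearMap))

theorem coF_apply (R : MvPolynomial (Fin 3) K) (j : ℕ) (f : MvPolynomial (Fin 3) K) :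
    coF R j f = R * C ((tau K f).coeff j) := rfl

/-- the product of all lines but one -/
noncomputable def Qi (K : Type*) [Field K] (i : Fin 7) : MvPolynomial (Fin 3) K :=
  ∏ j ∈ Finset.univ.erase i, line K j

noncomputable def QQ (K : Type*) [Field K] : MvPolynomial (Fin 3) K := ∏ j, line K j

theorem Qi_mem (i : Fin 7) : Qi K i ∈ W K 3 6 := by
  have h := IsHomogeneous.prod (Finset.univ.erase i) (line K) (fun _ => 1)
    (fun j _ => line_mem j)
  have e : ∑ j ∈ Finset.univ.erase i, (1 : ℕ) = 6 := by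
    rw [Finset.sum_const, Finset.card_erase_of_mem (Finset.mem_univ i)]; rfl
  rw [e] at h
  exact h

theorem QQ_mem : QQ K ∈ W K 3 7 := by
  have h := IsHomogeneous.prod Finset.univ (line K) (fun _ => 1)
    (fun j _ => line_mem j)
  exact h

theorem Qi_ne [CharZero K] (i : Fin 7) : Qi K i ≠ 0 :=
  Finset.prod_ne_zero_iff.mpr fun j _ => line_arr.ne j

theorem QQ_ne [CharZero K] : QQ K ≠ 0 :=
  Finset.prod_ne_zero_iff.mpr fun j _ => line_arr.ne j

theorem line_dvd_QQ (i : Fin 7) : line K i ∣ QQ K := Finset.dvd_prod_of_mem _ (Finset.mem_univ i)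

theorem line_dvd_Qi {i j : Fin 7} (h : j ≠ i) : line K j ∣ Qi K i :=
  Finset.dvd_prod_of_mem _ (Finset.mem_erase.mpr ⟨h, Finset.mem_univ j⟩)

theorem eval_Qi_ne [CharZero K] (i : Fin 7) : eval (tp K i) (Qi K i) ≠ 0 := by
  rw [Qi, map_prod]
  exact Finset.prod_ne_zero_iff.mpr fun j hj => eval_tp i j (Finset.ne_of_mem_erase hj).symm

theorem eval_Qi_eq {i j : Fin 7} (h : j ≠ i) : eval (tp K j) (Qi K i) = 0 := by
  obtain ⟨c, hc⟩ := line_dvd_Qi (K := K) h
  rw [hc, map_mul, eval_tp_self, zero_mul]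

theorem tau_Qi_natDegree [CharZero K] (i : Fin 7) : (tau K (Qi K i)).natDegree ≤ 6 := by
  rw [Qi, map_prod]
  refine (Polynomial.natDegree_prod_le _ _).trans ?_
  simp only [tau_line_natDegree]
  rw [Finset.sum_const, Finset.card_erase_of_mem (Finset.mem_univ i)]
  simp

theorem tau_QQ [CharZero K] : (tau K (QQ K)).natDegree = 7 := by
  rw [QQ, map_prod, Polynomial.natDegree_prod]
  · simp only [tau_line_natDegree]; simp
  · intro i _ h
    have := tau_line_natDegree (K := K) i
    rw [h] at this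
    simp at this

/-- existence of a triangular basis -/
def HasTB (K : Type*) [Field K] (m : ℕ) : Prop :=
  ∃ (κ : Type) (_ : Fintype κ) (r : κ → ℕ) (f : κ → MvPolynomial (Fin 3) K)
    (F : κ → Module.End K (MvPolynomial (Fin 3) K)),
    TB (line K) m r f F ∧ (3 + m - 1).choose m ≤ Fintype.card κ

theorem exists_map {V V' : Type*} [AddCommGroup V] [Module K V] [AddCommGroup V'] [Module K V']
    {κ : Type*} {v : κ → V} (hv : LinearIndependent K v) (w : κ → V') :
    ∃ φ : V →ₗ[K] V', ∀ i, φ (v i) = w i := by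
  let b := Module.Basis.span hv
  obtain ⟨φ, hφ⟩ := LinearMap.exists_extend (b.constr K w)
  refine ⟨φ, fun i => ?_⟩
  have h1 : φ (v i) = (φ.comp (Submodule.span K (Set.range v)).subtype) (b i) := by
    rw [LinearMap.comp_apply, Submodule.subtype_apply, Module.Basis.span_apply]
  rw [h1, hφ, Module.Basis.constr_basis]

theorem step [CharZero K] (m : ℕ) (h : HasTB K (m + 5)) : HasTB K (m + 5 + 1) := by
  classical
  obtain ⟨κ, _, r, f, F, hT, hcard⟩ := h
  let N := Finset.univ.sup r + 1
  have hN : ∀ j, r j < N := fun j => Nat.lt_succ_of_le (Finset.le_sup (Finset.mem_univ j))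
  let g : Fin 7 → MvPolynomial (Fin 3) K := fun i => Qi K i * w0 K ^ m
  let G : Fin m → MvPolynomial (Fin 3) K := fun k =>
    QQ K * (X 2 ^ (k : ℕ) * w0 K ^ (m - 1 - k))
  let f' : κ ⊕ Fin 7 ⊕ Fin m → MvPolynomial (Fin 3) K :=
    Sum.elim (fun j => ell K * f j) (Sum.elim g G)
  let r' : κ ⊕ Fin 7 ⊕ Fin m → ℕ :=
    Sum.elim r (Sum.elim (fun _ => N) (fun k => N + 1 + k))
  have homg : ∀ i, g i ∈ W K 3 (m + 5 + 1) := by
    intro i
    have h := (Qi_mem (K := K) i).mul (IsHomogeneous.pow (w0_mem (K := K)) m)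
    have e : 6 + 1 * m = m + 5 + 1 := by ring
    rw [e] at h; exact h
  have homG : ∀ k, G k ∈ W K 3 (m + 5 + 1) := by
    intro k
    have h := (QQ_mem (K := K)).mul ((isHomogeneous_X_pow (R := K) (2 : Fin 3) (k : ℕ)).mul
      (IsHomogeneous.pow (w0_mem (K := K)) (m - 1 - k)))
    have hk := k.2
    have e : 7 + ((k : ℕ) + 1 * (m - 1 - k)) = m + 5 + 1 := by omega
    rw [e] at h; exact h
  have hom' : ∀ j, f' j ∈ W K 3 (m + 5 + 1) := by
    rintro (j | i | k)
    · exact linear_mul_mem ell_mem (hT.hom j)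
    · exact homg i
    · exact homG k
  -- a K-linear division by `ell`
  have hinj : Function.Injective (LinearMap.mulLeft K (ell K)) := by
    intro a b hab
    have h0 : ell K ≠ 0 := ne_zero_of_eval (fun _ => 1) (by simp [ell]; norm_num)
    exact mul_left_cancel₀ h0 hab
  obtain ⟨δ0, hδ0⟩ := LinearMap.exists_leftInverse_of_injective (LinearMap.mulLeft K (ell K))
    (LinearMap.ker_eq_bot.mpr hinj)
  have hδ0' : ∀ x, δ0 (ell K * x) = x := fun x => congrArg (fun φ => φ x) hδ0
  let Fn : Fin 7 ⊕ Fin m → Module.End K (MvPolynomial (Fin 3) K) :=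
    Sum.elim (fun i => evF (Qi K i) (tp K i)) (fun k => coF (QQ K) (7 + k))
  have natG : ∀ k : Fin m, (tau K (G k)).natDegree = 7 + k := by
    intro k
    have hX : tau K (X 2) = Polynomial.X := by simp [tau]
    have e : tau K (G k) = tau K (QQ K) * Polynomial.X ^ (k : ℕ) := by
      simp only [G]
      rw [map_mul, map_mul, map_pow, map_pow, tau_w0, hX, one_pow, mul_one]
    rw [e, Polynomial.natDegree_mul_X_pow, tau_QQ]
    intro h
    have := tau_QQ (K := K)
    rw [h] at this; simp at this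
  -- the values of the new functionals
  have kill : ∀ (j : Fin 7 ⊕ Fin m) x, Fn j (ell K * x) = 0 := by
    rintro (i | k) x
    · simp only [Fn, Sum.elim_inl, evF_apply, map_mul, eval_tp_ell, zero_mul, map_zero, mul_zero]
    · simp only [Fn, Sum.elim_inr, coF_apply, map_mul, tau_ell, zero_mul, Polynomial.coeff_zero,
        map_zero, mul_zero]
  have lown : ∀ (F0 : κ → Module.End K (MvPolynomial (Fin 3) K)),
      (∀ j k, k ≠ j → r k ≤ r j → F0 j (ell K * f k) = 0) →
      ∀ j k, k ≠ j → r' k ≤ r' j → (Sum.elim F0 Fn : κ ⊕ Fin 7 ⊕ Fin m → _) j (f' k) = 0 := by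
    intro F0 hF0
    rintro (j | i | k) (j' | i' | k') hne hr
    · exact hF0 j j' (fun h => hne (by rw [h])) hr
    · exfalso
      have := hN j
      simp only [r', Sum.elim_inl, Sum.elim_inr] at hr
      omega
    · exfalso
      have := hN j
      simp only [r', Sum.elim_inl, Sum.elim_inr] at hr
      omega
    · exact kill (Sum.inl i) (f j')
    · have : i' ≠ i := fun h => hne (by rw [h])
      simp only [Sum.elim_inr, Fn, Sum.elim_inl, evF_apply, f', g, map_mul]
      rw [eval_Qi_eq this.symm, map_zero, zero_mul, mul_zero]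
    · exfalso
      simp only [r', Sum.elim_inl, Sum.elim_inr] at hr
      omega
    · exact kill (Sum.inr k) (f j')
    · simp only [Sum.elim_inr, Fn, Sum.elim_inl, coF_apply, f', g]
      rw [Polynomial.coeff_eq_zero_of_natDegree_lt, map_zero, mul_zero]
      rw [map_mul, map_pow, tau_w0, one_pow, mul_one]
      have := tau_Qi_natDegree (K := K) i'
      omega
    · have h1 : k' ≠ k := fun h => hne (by rw [h])
      have h2 : (k' : ℕ) ≠ k := fun h => h1 (Fin.ext h)
      simp only [r', Sum.elim_inr] at hr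
      simp only [Sum.elim_inr, Fn, coF_apply, f']
      rw [Polynomial.coeff_eq_zero_of_natDegree_lt, map_zero, mul_zero]
      rw [natG]
      omega
  have nen : ∀ (F0 : κ → Module.End K (MvPolynomial (Fin 3) K)),
      (∀ j, F0 j (ell K * f j) ≠ 0) →
      ∀ j, (Sum.elim F0 Fn : κ ⊕ Fin 7 ⊕ Fin m → _) j (f' j) ≠ 0 := by
    intro F0 hF0
    rintro (j | i | k)
    · exact hF0 j
    · simp only [Sum.elim_inr, Fn, Sum.elim_inl, evF_apply, f', g, map_mul, map_pow]
      refine mul_ne_zero (Qi_ne i) ?_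
      rw [Ne, ← C_pow, ← C_mul, MvPolynomial.C_eq_zero]
      exact mul_ne_zero (eval_Qi_ne i) (pow_ne_zero _ (eval_tp_w0 i))
    · simp only [Sum.elim_inr, Fn, coF_apply, f']
      refine mul_ne_zero QQ_ne ?_
      rw [Ne, MvPolynomial.C_eq_zero, ← natG k]
      intro h
      have h2 : (tau K (G k)).leadingCoeff = 0 := h
      rw [Polynomial.leadingCoeff_eq_zero] at h2
      have := natG k
      rw [h2] at this
      simp at this
      omega
  have hli : LinearIndependent K f' :=
    TB_linearIndependent (r := r') (F := Sum.elim (fun j => (F j).comp δ0) Fn)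
      (lown _ (fun j k hne hr => by
        rw [LinearMap.comp_apply, hδ0']; exact hT.low j k hne hr))
      (nen _ (fun j => by rw [LinearMap.comp_apply, hδ0']; exact hT.ne j))
  have hcard' : (3 + (m + 5 + 1) - 1).choose (m + 5 + 1) ≤
      Fintype.card (κ ⊕ Fin 7 ⊕ Fin m) := by
    simp only [Fintype.card_sum, Fintype.card_fin]
    have e1 : 3 + (m + 5 + 1) - 1 = (m + 7) + 1 := by omega
    have e2 : 3 + (m + 5) - 1 = m + 7 := by omega
    rw [e2] at hcard
    rw [e1, Nat.choose_succ_succ]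
    have e3 : (m + 7).choose (m + 5 + 1) = m + 7 := by
      have : m + 5 + 1 = (m + 7) - 1 := by omega
      rw [this, Nat.choose_symm (by omega), Nat.choose_one_right]
    have e4 : (m + 7).choose (Nat.succ (m + 5)) = m + 7 := e3
    omega
  have hspan := span_of_card hom' hli hcard'
  obtain ⟨δ, hδ⟩ := exists_map hli (Sum.elim f (fun _ => 0))
  have hδW : ∀ x ∈ W K 3 (m + 5), δ (ell K * x) = x := by
    intro x hx
    have h1 := hT.span x hx
    have h2 : Submodule.span K (Set.range f) ≤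
        LinearMap.eqLocus (δ.comp (LinearMap.mulLeft K (ell K))) LinearMap.id := by
      rw [Submodule.span_le]
      rintro _ ⟨j, rfl⟩
      exact hδ (Sum.inl j)
    exact h2 h1
  -- decomposition
  have hdec : ∀ x ∈ W K 3 (m + 5 + 1), ∃ y ∈ W K 3 (m + 5), ∃ c : Fin 7 → K, ∃ R,
      x = ell K * y + (∑ i, c i • g i) + QQ K * R ∧ δ x = y := by
    intro x hx
    refine Submodule.span_induction (p := fun x _ => ∃ y ∈ W K 3 (m + 5), ∃ c : Fin 7 → K, ∃ R,
      x = ell K * y + (∑ i, c i • g i) + QQ K * R ∧ δ x = y) ?_ ?_ ?_ ?_ (hspan x hx)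
    · rintro _ ⟨j | i | k, rfl⟩
      · exact ⟨f j, hT.hom j, 0, 0, by simp [f'], hδ (Sum.inl j)⟩
      · refine ⟨0, zero_mem _, Pi.single i 1, 0, ?_, hδ (Sum.inr (Sum.inl i))⟩
        rw [Finset.sum_eq_single i]
        · simp [f']
        · intro j _ hj; rw [Pi.single_eq_of_ne hj, zero_smul]
        · intro h; exact absurd (Finset.mem_univ i) h
      · exact ⟨0, zero_mem _, 0, X 2 ^ (k : ℕ) * w0 K ^ (m - 1 - k), by simp [f', G],
          hδ (Sum.inr (Sum.inr k))⟩
    · exact ⟨0, zero_mem _, 0, 0, by simp, map_zero _⟩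
    · rintro a b _ _ ⟨y, hy, c, R, h1, h2⟩ ⟨y', hy', c', R', h1', h2'⟩
      refine ⟨y + y', add_mem hy hy', c + c', R + R', ?_, by rw [map_add, h2, h2']⟩
      rw [h1, h1']
      simp only [Pi.add_apply, add_smul, Finset.sum_add_distrib]
      ring
    · rintro s a _ ⟨y, hy, c, R, h1, h2⟩
      refine ⟨s • y, Submodule.smul_mem _ _ hy, s • c, s • R, ?_, by rw [map_smul, h2]⟩
      rw [h1]
      simp only [Pi.smul_apply, smul_assoc, smul_add, Finset.smul_sum, mul_smul_comm]
  have hδdvd : ∀ i, ∀ x ∈ W K 3 (m + 5 + 1), line K i ∣ x → line K i ∣ δ x := by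
    intro i x hx hdv
    obtain ⟨y, hy, c, R, h1, h2⟩ := hdec x hx
    rw [h2]
    have hci : c i = 0 := by
      have h3 := congrArg (eval (tp K i)) h1
      obtain ⟨q, hq⟩ := hdv
      obtain ⟨q', hq'⟩ := line_dvd_QQ (K := K) i
      rw [hq, map_mul, eval_tp_self, zero_mul, map_add, map_add, map_mul, eval_tp_ell, zero_mul,
        zero_add, hq', map_mul, map_mul, eval_tp_self, zero_mul, zero_mul, add_zero, map_sum,
        Finset.sum_eq_single i] at h3
      · rw [MvPolynomial.smul_eval, map_mul, map_pow] at h3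
        exact (mul_eq_zero.mp h3.symm).resolve_right
          (mul_ne_zero (eval_Qi_ne i) (pow_ne_zero _ (eval_tp_w0 i)))
      · intro j _ hj
        rw [MvPolynomial.smul_eval, map_mul, eval_Qi_eq hj.symm, zero_mul, mul_zero]
      · intro h; exact absurd (Finset.mem_univ i) h
    have h4 : line K i ∣ ∑ j, c j • g j := by
      refine Finset.dvd_sum fun j _ => ?_
      by_cases hj : j = i
      · rw [hj, hci, zero_smul]; exact dvd_zero _
      · rw [MvPolynomial.smul_eq_C_mul]
        exact Dvd.dvd.mul_left (Dvd.dvd.mul_right (line_dvd_Qi (fun h => hj h.symm)) _) _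
    have h5 : line K i ∣ ell K * y := by
      have e : ell K * y = x - (∑ i, c i • g i) - QQ K * R := by rw [h1]; ring
      rw [e]
      exact dvd_sub (dvd_sub hdv h4) (Dvd.dvd.mul_right (line_dvd_QQ i) _)
    rcases (line_arr.prime i).dvd_or_dvd h5 with h | h
    · exfalso
      obtain ⟨p, hp0, hp1⟩ : ∃ p : Fin 3 → K, eval p (line K i) = 0 ∧ eval p (ell K) ≠ 0 := by
        refine ⟨![![1, 0, 0], ![1, 0, 1], ![1, 0, 0], ![1, 1, 0], ![0, 1, 0], ![0, 1, 1],
          ![1, 1, 0]] i, ?_, ?_⟩ <;> fin_cases i <;>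
          simp [line, B1, B2, B3, B4, A1, A2, A3, ell] <;> norm_num
      exact not_dvd_of_eval p hp0 hp1 h
    · exact h
  refine ⟨κ ⊕ Fin 7 ⊕ Fin m, inferInstance, r', f',
    Sum.elim (fun j => (F j).comp δ) Fn, ⟨hom', ?_, ?_, ?_, ?_, hspan⟩, hcard'⟩
  · rintro (j | i | k)
    · intro i x hx hdv
      obtain ⟨y, hy, -, -, -, h2⟩ := hdec x hx
      have h3 := hδdvd i x hx hdv
      rw [Sum.elim_inl, LinearMap.comp_apply]
      refine hT.good j i _ ?_ h3
      rw [h2]; exact hy
    · refine good_evF _ _ _ fun j => ?_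
      by_cases hj : j = i
      · left; rw [hj, eval_tp_self]
      · right; exact line_dvd_Qi hj
    · intro i x _ _
      exact Dvd.dvd.mul_right (line_dvd_QQ i) _
  · exact lown _ (fun j k hne hr => by
      rw [LinearMap.comp_apply, hδW _ (hT.hom k)]; exact hT.low j k hne hr)
  · exact nen _ (fun j => by rw [LinearMap.comp_apply, hδW _ (hT.hom j)]; exact hT.ne j)
  · intro θ hθ
    rintro (j | i | k) hk
    · simp only [Sum.elim_inl, LinearMap.comp_apply, f']
      rw [hδW _ (hT.hom j)]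
      refine hT.div (θ.comp (LinearMap.mulLeft K (ell K))) ?_ j ?_
      · intro i x hx hdv
        exact hθ i _ (linear_mul_mem ell_mem hx) (Dvd.dvd.mul_left hdv _)
      · intro k' hk'
        exact hk (Sum.inl k') hk'
    · simp only [Sum.elim_inr, Fn, Sum.elim_inl, evF_apply, f']
      refine mul_C_dvd ?_ ?_
      · simp only [g, map_mul, map_pow]
        exact mul_ne_zero (eval_Qi_ne i) (pow_ne_zero _ (eval_tp_w0 i))
      · refine line_arr.prod_dvd _ fun j hj => hθ j _ (homg i) ?_
        exact Dvd.dvd.mul_right (line_dvd_Qi (Finset.ne_of_mem_erase hj)) _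
    · simp only [Sum.elim_inr, Fn, coF_apply, f']
      refine mul_C_dvd ?_ ?_
      · rw [← natG k]
        intro h
        have h2 : (tau K (G k)).leadingCoeff = 0 := h
        rw [Polynomial.leadingCoeff_eq_zero] at h2
        have := natG k
        rw [h2] at this
        simp at this
        omega
      · refine line_arr.prod_dvd _ fun j _ => hθ j _ (homG k) ?_
        exact Dvd.dvd.mul_right (line_dvd_QQ j) _

end ShiFree
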