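import Pool.Agent.L5helper75.SH.Model

/-! Linear forms, arrangements given by families of linear forms, triangular bases. -/

namespace ShiFree

open MvPolynomial

variable {K : Type*} [Field K] {n : ℕ}


theorem prime_of_linear {α : (MvPolynomial (Fin n) K)} (h1 : α ∈ W K n 1) (h0 : α ≠ 0) : Prime α := by
  have hd : α.totalDegree = 1 := IsHomogeneous.totalDegree h1 h0
  have hirr : Irreducible α := by
    constructor
    · intro hu
      have := hu
      rw [MvPolynomial.isUnit_iff_totalDegree_of_isReduced] at this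
      omega
    · rintro a b rfl
      have ha : a ≠ 0 := left_ne_zero_of_mul h0
      have hb : b ≠ 0 := right_ne_zero_of_mul h0
      rw [totalDegree_mul_of_isDomain ha hb] at hd
      have key : ∀ c : (MvPolynomial (Fin n) K), c ≠ 0 → c.totalDegree = 0 → IsUnit c := by
        intro c hc hc'
        rw [totalDegree_eq_zero_iff_eq_C] at hc'
        rw [hc']
        apply IsUnit.map
        rw [isUnit_iff_ne_zero]
        intro h; rw [h, C_0] at hc'; exact hc hc'
      rcases (by omega : a.totalDegree = 0 ∨ b.totalDegree = 0) with h | h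
      · exact Or.inl (key a ha h)
      · exact Or.inr (key b hb h)
  exact hirr.prime

/-- a family of pairwise non-proportional linear forms -/
structure Arr {ι : Type*} (α : ι → (MvPolynomial (Fin n) K)) : Prop where
  lin : ∀ i, α i ∈ W K n 1
  ne : ∀ i, α i ≠ 0
  nd : ∀ i j, i ≠ j → ¬ α i ∣ α j

/-- the condition on values -/
def Good {ι : Type*} (α : ι → (MvPolynomial (Fin n) K)) (m : ℕ) (θ : (Module.End K (MvPolynomial (Fin n) K))) : Prop :=
  ∀ i, ∀ f ∈ W K n m, α i ∣ f → α i ∣ θ f

variable {ι : Type*} {α : ι → (MvPolynomial (Fin n) K)}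

theorem Arr.prime (hA : Arr α) (i : ι) : Prime (α i) := prime_of_linear (hA.lin i) (hA.ne i)

theorem Good.add {m : ℕ} {θ η : (Module.End K (MvPolynomial (Fin n) K))} (h : Good α m θ) (h' : Good α m η) : Good α m (θ + η) :=
  fun i f hf hd => by rw [LinearMap.add_apply]; exact dvd_add (h i f hf hd) (h' i f hf hd)

theorem Good.sub {m : ℕ} {θ η : (Module.End K (MvPolynomial (Fin n) K))} (h : Good α m θ) (h' : Good α m η) : Good α m (θ - η) :=
  fun i f hf hd => by rw [LinearMap.sub_apply]; exact dvd_sub (h i f hf hd) (h' i f hf hd)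

theorem Good.smul {m : ℕ} {θ : (Module.End K (MvPolynomial (Fin n) K))} (h : Good α m θ) (c : (MvPolynomial (Fin n) K)) : Good α m (c • θ) :=
  fun i f hf hd => by
    rw [LinearMap.smul_apply, smul_eq_mul]; exact Dvd.dvd.mul_left (h i f hf hd) _

theorem Good.congr {m : ℕ} {θ η : (Module.End K (MvPolynomial (Fin n) K))} (h : Good α m θ) (h' : ∀ f ∈ W K n m, η f = θ f) :
    Good α m η :=
  fun i f hf hd => by rw [h' f hf]; exact h i f hf hd

theorem good_id (m : ℕ) : Good α m (1 : (Module.End K (MvPolynomial (Fin n) K))) := fun _ _ _ hd => hd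

theorem Arr.isRelPrime (hA : Arr α) {i j : ι} (h : i ≠ j) : IsRelPrime (α i) (α j) :=
  ((hA.prime i).irreducible.isRelPrime_iff_not_dvd).mpr (hA.nd i j h)

theorem Arr.prod_dvd [DecidableEq ι] (hA : Arr α) (s : Finset ι) {g : (MvPolynomial (Fin n) K)} (h : ∀ i ∈ s, α i ∣ g) :
    ∏ i ∈ s, α i ∣ g :=
  Finset.prod_dvd_of_isRelPrime (fun _ _ _ _ hij => hA.isRelPrime hij) h

theorem Arr.mem_iff [Fintype ι] (hA : Arr α) {m : ℕ} {θ : (Module.End K (MvPolynomial (Fin n) K))} :
    θ ∈ arrModule K (m + 1) (∏ i, α i) ↔ θ ∈ opModule K n (m + 1) ∧ Good α (m + 1) θ := by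
  classical
  constructor
  · rintro ⟨h1, h2⟩
    refine ⟨h1, fun i f hf hd => ?_⟩
    obtain ⟨g, hg, rfl⟩ := hom_quot (e := 1) (hA.lin i) (by rwa [add_comm]) hd
    refine dvd_of_preserves (hA.prime i) (hA.lin i)
      (Finset.mul_prod_erase Finset.univ α (Finset.mem_univ i)).symm ?_ m h1 h2 g hg
    intro h
    obtain ⟨j, hj, hj'⟩ := (hA.prime i).dvd_finset_prod_iff _ |>.mp h
    exact hA.nd i j (Finset.ne_of_mem_erase hj).symm hj'
  · rintro ⟨h1, h2⟩
    refine ⟨h1, fun f => hA.prod_dvd _ fun i _ => ?_⟩
    rw [← Finset.mul_prod_erase Finset.univ α (Finset.mem_univ i), mul_assoc]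
    exact preserves_of_dvd (hA.lin i) (m + 1) h1 (h2 i) _

/-- lifting a good map to an element of the module -/
theorem Arr.lift [Fintype ι] [CharZero K] (hA : Arr α) {m : ℕ} {θ : (Module.End K (MvPolynomial (Fin n) K))} (h : Good α (m + 1) θ) :
    ∃ η ∈ arrModule K (m + 1) (∏ i, α i), ∀ f ∈ W K n (m + 1), η f = θ f := by
  obtain ⟨η, h1, h2⟩ := op_surjective (m + 1) θ
  exact ⟨η, hA.mem_iff.mpr ⟨h1, h.congr h2⟩, h2⟩

theorem arr_ext {m : ℕ} {Q : (MvPolynomial (Fin n) K)} {θ η : (Module.End K (MvPolynomial (Fin n) K))} (h : θ ∈ arrModule K m Q)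
    (h' : η ∈ arrModule K m Q) (he : ∀ f ∈ W K n m, θ f = η f) : θ = η := by
  rw [← sub_eq_zero]
  exact op_injective m (sub_mem h.1 h'.1) fun f hf => by
    rw [LinearMap.sub_apply, he f hf, sub_self]

/-- triangular basis data -/
structure TB (α : ι → (MvPolynomial (Fin n) K)) (m : ℕ) {κ : Type*} (r : κ → ℕ) (f : κ → (MvPolynomial (Fin n) K)) (F : κ → (Module.End K (MvPolynomial (Fin n) K))) : Prop where
  hom : ∀ j, f j ∈ W K n m
  good : ∀ j, Good α m (F j)
  low : ∀ j k, k ≠ j → r k ≤ r j → F j (f k) = 0
  ne : ∀ j, F j (f j) ≠ 0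
  div : ∀ θ : (Module.End K (MvPolynomial (Fin n) K)), Good α m θ → ∀ j, (∀ k, r k < r j → θ (f k) = 0) → F j (f j) ∣ θ (f j)
  span : ∀ g ∈ W K n m, g ∈ Submodule.span K (Set.range f)

theorem TB.isMFree [Fintype ι] [CharZero K] (hA : Arr α) {m : ℕ} {κ : Type*} [Fintype κ]
    {r : κ → ℕ} {f : κ → (MvPolynomial (Fin n) K)} {F : κ → (Module.End K (MvPolynomial (Fin n) K))} (hT : TB α (m + 1) r f F) :
    IsMFree K (m + 1) (∏ i, α i) := by
  classical
  choose P hP hPF using fun j => hA.lift (hT.good j)
  have hPf : ∀ j k, P j (f k) = F j (f k) := fun j k => hPF j _ (hT.hom k)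
  let P' : κ → arrModule K (m + 1) (∏ i, α i) := fun j => ⟨P j, hP j⟩
  have hsum : ∀ (c : κ → (MvPolynomial (Fin n) K)) (x : (MvPolynomial (Fin n) K)), ((∑ j, c j • P' j : arrModule K (m + 1) (∏ i, α i)) : (Module.End K (MvPolynomial (Fin n) K))) x =
      ∑ j, c j * P j x := by
    intro c x
    rw [Submodule.coe_sum, LinearMap.sum_apply]
    rfl
  have hli : LinearIndependent (MvPolynomial (Fin n) K) P' := by
    refine (Fintype.linearIndependent_iff (R := MvPolynomial (Fin n) K) (v := P')).mpr ?_
    intro c hc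
    have key : ∀ N, ∀ j, r j = N → c j = 0 := by
      intro N
      induction N using Nat.strong_induction_on with
      | _ N ih =>
        intro j hj
        have h1 := hsum c (f j)
        rw [hc] at h1
        have h2 : (0 : (MvPolynomial (Fin n) K)) = ∑ k, c k * P k (f j) := by rw [← h1]; rfl
        rw [Finset.sum_eq_single j] at h2
        · rw [hPf] at h2
          exact (mul_eq_zero.mp h2.symm).resolve_right (hT.ne j)
        · intro k _ hk
          rcases lt_or_ge (r k) (r j) with h | h
          · rw [ih (r k) (by omega) k rfl, zero_mul]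
          · rw [hPf, hT.low k j hk.symm h, mul_zero]
        · intro h; exact absurd (Finset.mem_univ j) h
    exact fun j => key _ j rfl
  have hsp : ⊤ ≤ Submodule.span (MvPolynomial (Fin n) K) (Set.range P') := by
    rintro ⟨φ, hφ⟩ -
    have key : ∀ N, ∃ ψ : arrModule K (m + 1) (∏ i, α i), ψ ∈ Submodule.span (MvPolynomial (Fin n) K) (Set.range P') ∧
        ∀ k, r k < N → (φ - ψ.1) (f k) = 0 := by
      intro N
      induction N with
      | zero => exact ⟨0, zero_mem _, fun k hk => absurd hk (Nat.not_lt_zero _)⟩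
      | succ N ih =>
        obtain ⟨ψ, hψ, hψ'⟩ := ih
        have hg : Good α (m + 1) (φ - ψ.1) :=
          (hA.mem_iff.mp (sub_mem hφ ψ.2)).2
        have hdv : ∀ j, r j = N → F j (f j) ∣ (φ - ψ.1) (f j) := by
          intro j hj
          exact hT.div _ hg j fun k hk => hψ' k (by omega)
        have hdv' : ∀ j, ∃ c, r j = N → (φ - ψ.1) (f j) = F j (f j) * c := by
          intro j
          by_cases h : r j = N
          · obtain ⟨c, hc⟩ := hdv j h
            exact ⟨c, fun _ => hc⟩
          · exact ⟨0, fun h' => absurd h' h⟩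
        choose c hc using hdv'
        let d : κ → (MvPolynomial (Fin n) K) := fun j => if r j = N then c j else 0
        refine ⟨ψ + ∑ j, d j • P' j, add_mem hψ (Submodule.sum_mem _ fun j _ =>
          Submodule.smul_mem _ _ (Submodule.subset_span ⟨j, rfl⟩)), ?_⟩
        intro k hk
        have e : (φ - (ψ + ∑ j, d j • P' j : arrModule K (m + 1) (∏ i, α i)).1) (f k) =
            (φ - ψ.1) (f k) - ∑ j, d j * P j (f k) := by
          rw [← hsum d (f k), LinearMap.sub_apply, LinearMap.sub_apply, Submodule.coe_add,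
            LinearMap.add_apply]
          ring
        rw [e]
        rcases lt_or_ge (r k) N with h | h
        · rw [hψ' k h, zero_sub, neg_eq_zero]
          apply Finset.sum_eq_zero
          intro j _
          by_cases hj : r j = N
          · rw [hPf, hT.low j k (by rintro rfl; omega) (by omega), mul_zero]
          · simp [d, hj]
        · have hkN : r k = N := by omega
          rw [Finset.sum_eq_single k]
          · simp only [d, hkN, if_true]
            rw [hPf, hc k hkN]; ring
          · intro j _ hjk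
            by_cases hj : r j = N
            · rw [hPf, hT.low j k hjk.symm (by omega), mul_zero]
            · simp [d, hj]
          · intro h; exact absurd (Finset.mem_univ k) h
    obtain ⟨ψ, hψ, hψ'⟩ := key (Finset.univ.sup r + 1)
    have hz : ∀ g ∈ W K n (m + 1), φ g = ψ.1 g := by
      intro g hg
      have h1 := hT.span g hg
      have h2 : Submodule.span K (Set.range f) ≤ LinearMap.ker (φ - ψ.1) := by
        rw [Submodule.span_le]
        rintro _ ⟨k, rfl⟩
        exact hψ' k (Nat.lt_succ_of_le (Finset.le_sup (Finset.mem_univ k)))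
      have h3 := h2 h1
      rw [LinearMap.mem_ker, LinearMap.sub_apply, sub_eq_zero] at h3
      exact h3
    have : (⟨φ, hφ⟩ : arrModule K (m + 1) (∏ i, α i)) = ψ := Subtype.ext (arr_ext hφ ψ.2 hz)
    rw [this]; exact hψ
  exact Module.Free.of_basis (Module.Basis.mk hli hsp)

/-- the K-independence of the test forms -/
theorem TB_linearIndependent {κ : Type*} [Fintype κ]
    {r : κ → ℕ} {f : κ → (MvPolynomial (Fin n) K)} {F : κ → (Module.End K (MvPolynomial (Fin n) K))} (low : ∀ j k, k ≠ j → r k ≤ r j → F j (f k) = 0)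
    (ne : ∀ j, F j (f j) ≠ 0) : LinearIndependent K f := by
  classical
  rw [Fintype.linearIndependent_iff]
  intro c hc
  have key : ∀ N, ∀ j, Finset.univ.sup r - r j = N → c j = 0 := by
    intro N
    induction N using Nat.strong_induction_on with
    | _ N ih =>
      intro j hj
      have h1 := congrArg (F j) hc
      rw [map_sum, map_zero, Finset.sum_eq_single j] at h1
      · rw [map_smul] at h1
        exact (smul_eq_zero.mp h1).resolve_right (ne j)
      · intro k _ hk
        rcases le_or_gt (r k) (r j) with h | h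
        · rw [map_smul, low j k hk h, smul_zero]
        · have h3 : r k ≤ Finset.univ.sup r := Finset.le_sup (Finset.mem_univ k)
          rw [ih (Finset.univ.sup r - r k) (by omega) k rfl, zero_smul, map_zero]
      · intro h; exact absurd (Finset.mem_univ j) h
  exact fun j => key _ j rfl

theorem finrank_W_le (m : ℕ) : Module.finrank K (W K n m) ≤ (n + m - 1).choose m := by
  let b : (Finset.finsuppAntidiag (Finset.univ : Finset (Fin n)) m) → MvPolynomial (Fin n) K :=
    fun d => monomial d.1 1
  have h1 : W K n m ≤ Submodule.span K (Set.range b) := by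
    intro f hf
    rw [f.as_sum]
    refine Submodule.sum_mem _ fun s hs => ?_
    have hs' : s.degree = m := by
      have := hf (mem_support_iff.mp hs)
      rwa [Finsupp.degree_eq_weight_one]
    have e : monomial s (coeff s f) = (coeff s f) • (monomial s (1 : K) : (MvPolynomial (Fin n) K)) := by
      rw [smul_monomial, smul_eq_mul, mul_one]
    rw [e]
    refine Submodule.smul_mem _ _ (Submodule.subset_span ?_)
    refine ⟨⟨s, ?_⟩, rfl⟩
    rw [Finset.mem_finsuppAntidiag]
    refine ⟨?_, Finset.subset_univ _⟩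
    rw [← hs', Finsupp.degree_eq_sum]
  haveI : Module.Finite K (Submodule.span K (Set.range b)) :=
    Module.Finite.span_of_finite K (Set.finite_range b)
  refine (Submodule.finrank_mono h1).trans ((finrank_range_le_card b).trans ?_)
  rw [Fintype.card_coe, Finset.card_finsuppAntidiag_nat_eq_choose]
  simp

instance (m : ℕ) : Module.Finite K (W K n m) :=
  Module.Finite.iff_fg.mpr (homogeneousSubmodule_fg _ _ _)

/-- a linearly independent family of the right cardinality spans -/
theorem span_of_card {m : ℕ} {κ : Type*} [Fintype κ] {f : κ → (MvPolynomial (Fin n) K)} (hf : ∀ j, f j ∈ W K n m)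
    (hli : LinearIndependent K f) (hc : (n + m - 1).choose m ≤ Fintype.card κ) :
    ∀ g ∈ W K n m, g ∈ Submodule.span K (Set.range f) := by
  let f' : κ → W K n m := fun j => ⟨f j, hf j⟩
  have hli' : LinearIndependent K f' := by
    apply LinearIndependent.of_comp (W K n m).subtype
    exact hli
  have h1 : Fintype.card κ ≤ Module.finrank K (W K n m) := hli'.fintype_card_le_finrank
  have h2 := finrank_W_le (K := K) (n := n) m
  have h3 := hli'.span_eq_top_of_card_eq_finrank' (by omega)
  intro g hg
  have h4 : (⟨g, hg⟩ : W K n m) ∈ Submodule.span K (Set.range f') := by rw [h3]; trivial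
  have h5 := Submodule.mem_map_of_mem (f := (W K n m).subtype) h4
  rw [Submodule.map_span, ← Set.range_comp] at h5
  exact h5

end ShiFree
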